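import Pool.Agent.H9.IZ.Defs
import Pool.Agent.H9.IR.Defs

/-!
# From `n` vectors to any number of vectors
-/

set_option autoImplicit false

open MvPolynomial Matrix

namespace Pool.Agent.H9.IZ

open Pool.Agent.H9.IR (evM LInv)

theorem any_vectors {n : ℕ} {ι : Type} [Fintype ι]
    (G : Subgroup (SpecialLinearGroup (Fin n) ℝ))
    (hsame : ∀ f : MvPolynomial (Fin n × Fin n) ℝ,
      (∀ γ ∈ G, LInv (γ : Matrix (Fin n) (Fin n) ℝ) f) →
      ∃ q : Polynomial ℝ, ∀ Y : Matrix (Fin n) (Fin n) ℝ, evM Y f = q.eval Y.det)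
    (f : MvPolynomial (Fin n × ι) ℝ)
    (hf : ∀ γ ∈ G, ∀ v, ev ((γ : Matrix (Fin n) (Fin n) ℝ) * v) f = ev v f)
    (g : SpecialLinearGroup (Fin n) ℝ) (v : Matrix (Fin n) ι ℝ) :
    ev ((g : Matrix (Fin n) (Fin n) ℝ) * v) f = ev v f := by
  set F : MvPolynomial (Fin n × Fin n) ℝ :=
    aeval (fun q : Fin n × ι => ∑ k, C (v k q.2) * X (q.1, k)) f with hF
  have hFv : ∀ Y : Matrix (Fin n) (Fin n) ℝ, evM Y F = ev (Y * v) f := by
    intro Y
    unfold evM ev
    rw [hF, aeval_def, eval₂_eq', MvPolynomial.eval_eq' (fun q => (Y * v) q.1 q.2) f, map_sum]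
    refine Finset.sum_congr rfl fun d _ => ?_
    rw [map_mul, map_prod, MvPolynomial.algebraMap_eq, eval_C]
    congr 1
    refine Finset.prod_congr rfl fun i _ => ?_
    rw [map_pow, map_sum]
    congr 1
    rw [Matrix.mul_apply]
    refine Finset.sum_congr rfl fun j _ => ?_
    rw [map_mul, eval_C, eval_X, mul_comm]
  obtain ⟨q, hq⟩ := hsame F fun γ hγ Y => by
    rw [hFv, hFv, Matrix.mul_assoc, hf γ hγ]
  have h1 := hq (g : Matrix (Fin n) (Fin n) ℝ)
  have h2 := hq 1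
  rw [hFv] at h1 h2
  rw [Matrix.one_mul, Matrix.det_one] at h2
  rw [h1, h2, g.2]

end Pool.Agent.H9.IZ
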