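import Pool.Agent.H9.IZ.Defs

set_option autoImplicit false

open Matrix

namespace Pool.Agent.H9.IZ

/-- the matrix with `a` at `(p, q)`, zeros elsewhere in the row `p` and the column `q`, and `A` else -/
private def emb {n : ℕ} (p q : Fin (n + 1)) (a : ℝ) (A : Matrix (Fin n) (Fin n) ℝ) :
    Matrix (Fin (n + 1)) (Fin (n + 1)) ℝ :=
  fun i => (Fin.insertNth (α := fun _ => Fin (n + 1) → ℝ) p
    (Fin.insertNth (α := fun _ => ℝ) q a (fun _ => 0))
    (fun i' => Fin.insertNth (α := fun _ => ℝ) q 0 (A i'))) i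

private theorem emb_pq {n : ℕ} (p q : Fin (n + 1)) (a : ℝ) (A : Matrix (Fin n) (Fin n) ℝ) :
    emb p q a A p q = a := by
  unfold emb
  rw [Fin.insertNth_apply_same, Fin.insertNth_apply_same]

private theorem emb_pj {n : ℕ} (p q : Fin (n + 1)) (a : ℝ) (A : Matrix (Fin n) (Fin n) ℝ)
    (j : Fin n) : emb p q a A p (q.succAbove j) = 0 := by
  unfold emb
  rw [Fin.insertNth_apply_same, Fin.insertNth_apply_succAbove]

private theorem emb_iq {n : ℕ} (p q : Fin (n + 1)) (a : ℝ) (A : Matrix (Fin n) (Fin n) ℝ)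
    (i : Fin n) : emb p q a A (p.succAbove i) q = 0 := by
  unfold emb
  rw [Fin.insertNth_apply_succAbove, Fin.insertNth_apply_same]

private theorem emb_ij {n : ℕ} (p q : Fin (n + 1)) (a : ℝ) (A : Matrix (Fin n) (Fin n) ℝ)
    (i j : Fin n) : emb p q a A (p.succAbove i) (q.succAbove j) = A i j := by
  unfold emb
  rw [Fin.insertNth_apply_succAbove, Fin.insertNth_apply_succAbove]

private theorem ext_emb {n : ℕ} (p q : Fin (n + 1)) (M N : Matrix (Fin (n + 1)) (Fin (n + 1)) ℝ)
    (h1 : M p q = N p q) (h2 : ∀ j, M p (q.succAbove j) = N p (q.succAbove j))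
    (h3 : ∀ i, M (p.succAbove i) q = N (p.succAbove i) q)
    (h4 : ∀ i j, M (p.succAbove i) (q.succAbove j) = N (p.succAbove i) (q.succAbove j)) :
    M = N := by
  ext i j
  rcases Fin.eq_self_or_eq_succAbove p i with rfl | ⟨i', rfl⟩
  · rcases Fin.eq_self_or_eq_succAbove q j with rfl | ⟨j', rfl⟩
    · exact h1
    · exact h2 j'
  · rcases Fin.eq_self_or_eq_succAbove q j with rfl | ⟨j', rfl⟩
    · exact h3 i'
    · exact h4 i' j'

private theorem emb_mul {n : ℕ} (p q r : Fin (n + 1)) (a b : ℝ)
    (A B : Matrix (Fin n) (Fin n) ℝ) :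
    emb p q a A * emb q r b B = emb p r (a * b) (A * B) := by
  refine ext_emb p r _ _ ?_ (fun j => ?_) (fun i => ?_) (fun i j => ?_)
  · rw [Matrix.mul_apply, Fin.sum_univ_succAbove _ q]
    simp only [emb_pq, emb_pj, emb_iq, mul_zero, Finset.sum_const_zero, add_zero]
  · rw [Matrix.mul_apply, Fin.sum_univ_succAbove _ q]
    simp only [emb_pq, emb_pj, mul_zero, zero_mul, Finset.sum_const_zero, add_zero]
  · rw [Matrix.mul_apply, Fin.sum_univ_succAbove _ q]
    simp only [emb_iq, mul_zero, zero_mul, Finset.sum_const_zero, add_zero]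
  · rw [Matrix.mul_apply, Fin.sum_univ_succAbove _ q]
    simp only [emb_iq, emb_pj, emb_ij, mul_zero, zero_add, Matrix.mul_apply]

private theorem emb_one {n : ℕ} (p : Fin (n + 1)) : emb p p 1 (1 : Matrix (Fin n) (Fin n) ℝ) = 1 := by
  refine ext_emb p p _ _ ?_ (fun j => ?_) (fun i => ?_) (fun i j => ?_)
  · rw [emb_pq, Matrix.one_apply_eq]
  · rw [emb_pj, Matrix.one_apply_ne (Fin.succAbove_ne p j).symm]
  · rw [emb_iq, Matrix.one_apply_ne (Fin.succAbove_ne p i)]
  · rw [emb_ij, Matrix.one_apply, Matrix.one_apply]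
    simp only [Fin.succAbove_right_inj]

private theorem emb_unit {n : ℕ} (p : Fin (n + 1)) (a : ℝ) (ha : a ≠ 0)
    (A : Matrix (Fin n) (Fin n) ℝ) (hA : IsUnit A.det) : IsUnit (emb p p a A).det := by
  refine Matrix.isUnit_det_of_right_inverse (B := emb p p a⁻¹ A⁻¹) ?_
  rw [emb_mul, mul_inv_cancel₀ ha, Matrix.mul_nonsing_inv A hA, emb_one]

private theorem emb_up {n : ℕ} (p : Fin (n + 1)) (a : ℝ)
    (A : Matrix (Fin n) (Fin n) ℝ) (hA : Up A) : Up (emb p p a A) := by
  intro i j hji
  rcases Fin.eq_self_or_eq_succAbove p i with rfl | ⟨i', rfl⟩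
  · rcases Fin.eq_self_or_eq_succAbove i j with h | ⟨j', rfl⟩
    · exact absurd h hji.ne
    · exact emb_pj _ _ _ _ _
  · rcases Fin.eq_self_or_eq_succAbove p j with rfl | ⟨j', rfl⟩
    · exact emb_iq _ _ _ _ _
    · rw [emb_ij]
      exact hA i' j' (Fin.succAbove_lt_succAbove_iff.1 hji)

private theorem emb_pm {n : ℕ} (p q : Fin (n + 1)) (w : Equiv.Perm (Fin n)) :
    ∃ w' : Equiv.Perm (Fin (n + 1)), emb p q 1 (pm w) = pm w' := by
  refine ⟨(finSuccEquiv' p).trans ((Equiv.optionCongr w).trans (finSuccEquiv' q).symm), ?_⟩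
  refine ext_emb p q _ _ ?_ (fun j => ?_) (fun i => ?_) (fun i j => ?_)
  · rw [emb_pq]
    simp [pm]
  · rw [emb_pj]
    simp [pm, (Fin.succAbove_ne q j).symm]
  · rw [emb_iq]
    simp [pm, Fin.succAbove_ne]
  · rw [emb_ij]
    simp [pm]

private theorem det_emb {n : ℕ} (p q : Fin (n + 1)) (a : ℝ) (A : Matrix (Fin n) (Fin n) ℝ)
    (h : (emb p q a A).det ≠ 0) : A.det ≠ 0 := by
  intro hA
  apply h
  rw [Matrix.det_succ_row _ p, Finset.sum_eq_single q]
  · have h1 : (emb p q a A).submatrix p.succAbove q.succAbove = A := by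
      ext i j
      exact emb_ij _ _ _ _ _ _
    rw [h1, hA, mul_zero]
  · intro j _ hj
    rcases Fin.eq_self_or_eq_succAbove q j with h' | ⟨j', rfl⟩
    · exact absurd h' hj
    · rw [emb_pj, mul_zero, zero_mul]
  · intro h'
    exact absurd (Finset.mem_univ _) h'

private theorem up_det {n : ℕ} (b : Matrix (Fin n) (Fin n) ℝ) (hb : Up b) :
    b.det = ∏ i, b i i := by
  refine Matrix.det_of_isUpperTriangular ?_
  intro i j h
  exact hb i j h

private theorem up_mul {n : ℕ} (b c : Matrix (Fin n) (Fin n) ℝ) (hb : Up b) (hc : Up c) :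
    Up (b * c) := by
  intro i j hji
  rw [Matrix.mul_apply]
  refine Finset.sum_eq_zero fun k _ => ?_
  rcases lt_or_ge k i with h | h
  · rw [hb i k h, zero_mul]
  · rw [hc k j (lt_of_lt_of_le hji h), mul_zero]

/-- TASK Br. Bruhat decomposition (Gauss elimination, e.g. induction on `n`, or: upper triangular row
operations from the left which make the matrix monomial up to upper triangular column operations). -/
theorem bruhat {n : ℕ} (M : Matrix (Fin n) (Fin n) ℝ) (hM : IsUnit M.det) :
    ∃ (b c : Matrix (Fin n) (Fin n) ℝ) (w : Equiv.Perm (Fin n)),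
      IsUnit b.det ∧ IsUnit c.det ∧ Up b ∧ Up c ∧ M = b * pm w * c := by
  induction n with
  | zero =>
    refine ⟨1, 1, 1, ?_, ?_, fun i => i.elim0, fun i => i.elim0, ?_⟩
    · simp
    · simp
    · ext i
      exact i.elim0
  | succ n ih =>
    classical
    have hM0 : M.det ≠ 0 := hM.ne_zero
    obtain ⟨p, hp, hmax⟩ : ∃ p, M p 0 ≠ 0 ∧ ∀ i, p < i → M i 0 = 0 := by
      have hne : (Finset.univ.filter fun i => M i 0 ≠ 0).Nonempty := by
        by_contra h
        rw [Finset.not_nonempty_iff_eq_empty, Finset.filter_eq_empty_iff] at h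
        refine hM0 (Matrix.det_eq_zero_of_column_eq_zero 0 fun i => ?_)
        have := h (Finset.mem_univ i)
        push Not at this
        exact this
      refine ⟨_, (Finset.mem_filter.1 (Finset.max'_mem _ hne)).2, fun i hi => ?_⟩
      by_contra h
      exact absurd (Finset.le_max' _ i (Finset.mem_filter.2 ⟨Finset.mem_univ _, h⟩)) (not_le.2 hi)
    obtain ⟨a, ha⟩ : ∃ a, a = M p 0 := ⟨_, rfl⟩
    rw [← ha] at hp
    let b1 : Matrix (Fin (n + 1)) (Fin (n + 1)) ℝ :=
      fun i j => if j = p then M i 0 / a else if i = j then 1 else 0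
    let c1 : Matrix (Fin (n + 1)) (Fin (n + 1)) ℝ :=
      fun i j => if i = 0 then M p j / a else if i = j then 1 else 0
    let M' : Matrix (Fin n) (Fin n) ℝ :=
      fun i j => M (p.succAbove i) ((0 : Fin (n + 1)).succAbove j) -
        M (p.succAbove i) 0 * M p ((0 : Fin (n + 1)).succAbove j) / a
    have hb1 : Up b1 := by
      intro i j hji
      show (if j = p then M i 0 / a else if i = j then 1 else 0) = 0
      split_ifs with h1 h2
      · rw [hmax i (h1 ▸ hji), zero_div]
      · exact absurd h2 hji.ne'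
      · rfl
    have hc1 : Up c1 := by
      intro i j hji
      show (if i = 0 then M p j / a else if i = j then 1 else 0) = 0
      split_ifs with h1 h2
      · exact absurd (h1 ▸ hji) (Fin.not_lt_zero j)
      · exact absurd h2 hji.ne'
      · rfl
    have hb1d : IsUnit b1.det := by
      rw [up_det b1 hb1]
      refine IsUnit.mk0 _ (Finset.prod_ne_zero_iff.2 fun i _ => ?_)
      show (if i = p then M i 0 / a else if i = i then 1 else 0) ≠ 0
      split_ifs with h1 h2
      · rw [h1, ← ha]
        exact div_ne_zero hp hp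
      · exact one_ne_zero
      · exact absurd rfl h2
    have hc1d : IsUnit c1.det := by
      rw [up_det c1 hc1]
      refine IsUnit.mk0 _ (Finset.prod_ne_zero_iff.2 fun i _ => ?_)
      show (if i = 0 then M p i / a else if i = i then 1 else 0) ≠ 0
      split_ifs with h1 h2
      · rw [h1, ← ha]
        exact div_ne_zero hp hp
      · exact one_ne_zero
      · exact absurd rfl h2
    have hE : ∀ i j, (b1 * emb p 0 a M') i j = if j = 0 then M i 0 else
        (if i = p then 0 else M i j - M i 0 * M p j / a) := by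
      intro i j
      rw [Matrix.mul_apply, Fin.sum_univ_succAbove _ p]
      have e1 : b1 i p = M i 0 / a := if_pos rfl
      have e2 : ∀ k, b1 i (p.succAbove k) = if i = p.succAbove k then 1 else 0 :=
        fun k => if_neg (Fin.succAbove_ne p k)
      rcases Fin.eq_self_or_eq_succAbove (0 : Fin (n + 1)) j with rfl | ⟨j', rfl⟩
      · rw [if_pos rfl]
        simp only [e1, emb_pq, emb_iq, mul_zero, Finset.sum_const_zero, add_zero]
        rw [div_mul_cancel₀ _ hp]
      · rw [if_neg (Fin.succAbove_ne _ _)]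
        simp only [e2, emb_pj, emb_ij, mul_zero, zero_add]
        rcases Fin.eq_self_or_eq_succAbove p i with rfl | ⟨i', rfl⟩
        · rw [if_pos rfl]
          refine Finset.sum_eq_zero fun k _ => ?_
          rw [if_neg (Fin.succAbove_ne i k).symm, zero_mul]
        · rw [if_neg (Fin.succAbove_ne p i')]
          simp only [Fin.succAbove_right_inj, ite_mul, one_mul, zero_mul, Finset.sum_ite_eq,
            Finset.mem_univ, if_true]
          rfl
    have hME : M = b1 * emb p 0 a M' * c1 := by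
      ext i j
      rw [Matrix.mul_apply, Fin.sum_univ_succAbove _ (0 : Fin (n + 1))]
      have e1 : c1 0 j = M p j / a := if_pos rfl
      have e2 : ∀ k, c1 ((0 : Fin (n + 1)).succAbove k) j =
          if (0 : Fin (n + 1)).succAbove k = j then 1 else 0 :=
        fun k => if_neg (Fin.succAbove_ne _ k)
      simp only [hE, e1, e2, if_true, Fin.succAbove_ne, if_false]
      rcases Fin.eq_self_or_eq_succAbove (0 : Fin (n + 1)) j with rfl | ⟨j', rfl⟩
      · simp only [Fin.succAbove_ne, if_false, mul_zero, Finset.sum_const_zero, add_zero]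
        rw [← ha, div_self hp, mul_one]
      · simp only [Fin.succAbove_right_inj, mul_ite, mul_one, mul_zero, Finset.sum_ite_eq',
          Finset.mem_univ, if_true]
        split_ifs with h
        · rw [h, ← ha]
          field_simp
          ring
        · ring
    have hM' : M'.det ≠ 0 := by
      refine det_emb p 0 a M' fun h => hM0 ?_
      rw [hME, Matrix.det_mul, Matrix.det_mul, h, mul_zero, zero_mul]
    obtain ⟨b', c', w', hb, hc, hbU, hcU, hEq⟩ := ih M' (IsUnit.mk0 _ hM')
    obtain ⟨w, hw⟩ := emb_pm p 0 w'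
    have hsplit : emb p 0 a M' = emb p p 1 b' * pm w * emb 0 0 a c' := by
      rw [← hw, emb_mul, emb_mul, one_mul, one_mul, ← hEq]
    refine ⟨b1 * emb p p 1 b', emb 0 0 a c' * c1, w, ?_, ?_, ?_, ?_, ?_⟩
    · rw [Matrix.det_mul]
      exact hb1d.mul (emb_unit p 1 one_ne_zero b' hb)
    · rw [Matrix.det_mul]
      exact (emb_unit 0 a hp c' hc).mul hc1d
    · exact up_mul _ _ hb1 (emb_up p 1 b' hbU)
    · exact up_mul _ _ (emb_up 0 a c' hcU) hc1
    · rw [hME, hsplit]
      simp only [Matrix.mul_assoc]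

end Pool.Agent.H9.IZ
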