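import Pool.Agent.H9.IZ.Defs

set_option autoImplicit false

open Matrix

namespace Pool.Agent.H9.IZ

private theorem prod_apply {n : ℕ} (b c : Matrix (Fin n) (Fin n) ℝ) (w : Equiv.Perm (Fin n))
    (k j : Fin n) : (b * pm w * c) k j = ∑ l, b k l * c (w l) j := by
  rw [Matrix.mul_assoc, Matrix.mul_apply]
  refine Finset.sum_congr rfl fun l _ => ?_
  rw [Matrix.mul_apply, Finset.sum_eq_single (w l)]
  · simp [pm]
  · intro m _ hm
    have : w l ≠ m := fun h => hm h.symm
    simp [pm, this]
  · intro h
    exact absurd (Finset.mem_univ _) h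

private theorem exists_pivot {n : ℕ} (M : Matrix (Fin (n + 1)) (Fin (n + 1)) ℝ)
    (hM : M.det ≠ 0) : ∃ i : Fin (n + 1), M i 0 ≠ 0 ∧ ∀ k, i < k → M k 0 = 0 := by
  classical
  have hne : (Finset.univ.filter fun i : Fin (n + 1) => M i 0 ≠ 0).Nonempty := by
    by_contra h
    rw [Finset.not_nonempty_iff_eq_empty] at h
    apply hM
    refine Matrix.det_eq_zero_of_column_eq_zero 0 fun i => ?_
    by_contra hi
    have : i ∈ (Finset.univ.filter fun i : Fin (n + 1) => M i 0 ≠ 0) := by
      simp [hi]
    rw [h] at this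
    simp at this
  obtain ⟨i, hi, hmax⟩ := Finset.exists_max_image _ (fun i : Fin (n + 1) => i) hne
  refine ⟨i, (Finset.mem_filter.mp hi).2, fun k hk => ?_⟩
  by_contra hk0
  exact absurd (hmax k (Finset.mem_filter.mpr ⟨Finset.mem_univ _, hk0⟩)) (not_le.mpr hk)

private theorem schur_det {n : ℕ} (M : Matrix (Fin (n + 1)) (Fin (n + 1)) ℝ) (hM : M.det ≠ 0)
    (i : Fin (n + 1)) (hi : M i 0 ≠ 0) :
    (Matrix.of fun a b : Fin n =>
      M (i.succAbove a) b.succ - M (i.succAbove a) 0 * M i b.succ / M i 0).det ≠ 0 := by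
  intro h0
  obtain ⟨v, hv, hNv⟩ := Matrix.exists_mulVec_eq_zero_iff.mpr h0
  apply hM
  refine Matrix.exists_mulVec_eq_zero_iff.mp
    ⟨Fin.cons (-(∑ b, M i b.succ * v b) / M i 0) v, ?_, ?_⟩
  · intro h
    apply hv
    funext b
    have := congrFun h b.succ
    simpa using this
  · funext k
    have key : (M *ᵥ (Fin.cons (-(∑ b, M i b.succ * v b) / M i 0) v : Fin (n + 1) → ℝ)) k =
        M k 0 * (-(∑ b, M i b.succ * v b) / M i 0) + ∑ b : Fin n, M k b.succ * v b := by
      simp [Matrix.mulVec, dotProduct, Fin.sum_univ_succ]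
    rw [key]
    refine Fin.succAboveCases i ?_ (fun k' => ?_) k
    · simp only [Pi.zero_apply]
      field_simp
      ring
    · have h1 := congrFun hNv k'
      simp only [Matrix.mulVec, dotProduct, Matrix.of_apply, Pi.zero_apply] at h1 ⊢
      have h2 : ∑ b : Fin n, (M (i.succAbove k') b.succ -
          M (i.succAbove k') 0 * M i b.succ / M i 0) * v b =
          M (i.succAbove k') 0 * (-(∑ b, M i b.succ * v b) / M i 0) +
            ∑ b : Fin n, M (i.succAbove k') b.succ * v b := by
        rw [show M (i.succAbove k') 0 * (-(∑ b, M i b.succ * v b) / M i 0) =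
          ∑ b : Fin n, -(M (i.succAbove k') 0 * M i b.succ / M i 0) * v b from by
            rw [neg_div, Finset.sum_div, ← Finset.sum_neg_distrib, Finset.mul_sum]
            refine Finset.sum_congr rfl fun b _ => ?_
            ring]
        rw [← Finset.sum_add_distrib]
        refine Finset.sum_congr rfl fun b _ => ?_
        ring
      rw [← h2]
      exact h1

private theorem bruhat_aux : ∀ (n : ℕ) (M : Matrix (Fin n) (Fin n) ℝ), M.det ≠ 0 →
    ∃ (b c : Matrix (Fin n) (Fin n) ℝ) (w : Equiv.Perm (Fin n)),
      Up b ∧ Up c ∧ M = b * pm w * c := by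
  intro n
  induction n with
  | zero =>
    intro M _
    refine ⟨1, 1, 1, fun i => i.elim0, fun i => i.elim0, ?_⟩
    ext i
    exact i.elim0
  | succ n ih =>
    intro M hM
    obtain ⟨i, hi, hmax⟩ := exists_pivot M hM
    obtain ⟨b', c', w', hb', hc', hN⟩ := ih _ (schur_det M hM i hi)
    let w : Equiv.Perm (Fin (n + 1)) :=
      (finSuccEquiv' i).trans ((Equiv.optionCongr w').trans (finSuccEquiv' 0).symm)
    have hwi : w i = 0 := by
      simp [w]
    have hws : ∀ a : Fin n, w (i.succAbove a) = (w' a).succ := by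
      intro a
      simp [w]
    let b : Matrix (Fin (n + 1)) (Fin (n + 1)) ℝ := Matrix.of fun k l =>
      Fin.insertNth (α := fun _ => ℝ) i (M k 0)
        (fun a => Fin.insertNth (α := fun _ => ℝ) i 0 (fun k' => b' k' a) k) l
    let c : Matrix (Fin (n + 1)) (Fin (n + 1)) ℝ := Matrix.of fun k j =>
      Fin.cons (α := fun _ => ℝ) (M i j / M i 0)
        (fun a => Fin.cons (α := fun _ => ℝ) 0 (fun j' => c' a j') j) k
    have hbi : ∀ k, b k i = M k 0 := fun k => by simp [b]
    have hbis : ∀ a : Fin n, b i (i.succAbove a) = 0 := fun a => by simp [b]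
    have hbss : ∀ k' a : Fin n, b (i.succAbove k') (i.succAbove a) = b' k' a := fun k' a => by simp [b]
    have hc0 : ∀ j, c 0 j = M i j / M i 0 := fun j => by simp [c]
    have hcs0 : ∀ a : Fin n, c a.succ 0 = 0 := fun a => by simp [c]
    have hcss : ∀ a j' : Fin n, c a.succ j'.succ = c' a j' := fun a j' => by simp [c]
    refine ⟨b, c, w, ?_, ?_, ?_⟩
    · intro k l hlk
      revert hlk
      refine Fin.succAboveCases i ?_ (fun a => ?_) l
      · intro hlk
        rw [hbi]
        exact hmax k hlk
      · refine Fin.succAboveCases i ?_ (fun k' => ?_) k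
        · intro _
          exact hbis a
        · intro hlk
          rw [hbss]
          exact hb' k' a (Fin.succAbove_lt_succAbove_iff.mp hlk)
    · intro k l hlk
      revert hlk
      refine Fin.cases ?_ (fun a => ?_) k
      · intro hlk
        exact absurd hlk (Fin.not_lt_zero l)
      · refine Fin.cases ?_ (fun j' => ?_) l
        · intro _
          exact hcs0 a
        · intro hlk
          rw [hcss]
          exact hc' a j' (Fin.succ_lt_succ_iff.mp hlk)
    · ext k j
      rw [prod_apply, Fin.sum_univ_succAbove _ i, hbi, hwi, hc0]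
      refine Fin.cases ?_ (fun j' => ?_) j
      · rw [div_self hi, mul_one, Finset.sum_eq_zero, add_zero]
        intro a _
        rw [hws, hcs0, mul_zero]
      · refine Fin.succAboveCases i ?_ (fun k' => ?_) k
        · rw [Finset.sum_eq_zero, add_zero]
          · field_simp
          · intro a _
            rw [hbis, zero_mul]
        · have h1 := congrFun (congrFun hN k') j'
          rw [prod_apply, Matrix.of_apply] at h1
          have h2 : ∑ a, b (i.succAbove k') (i.succAbove a) * c (w (i.succAbove a)) j'.succ =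
              ∑ a, b' k' a * c' (w' a) j' := by
            refine Finset.sum_congr rfl fun a _ => ?_
            rw [hbss, hws, hcss]
          rw [h2, ← h1]
          ring

/-- TASK Br. Bruhat decomposition (Gauss elimination, e.g. induction on `n`, or: upper triangular row
operations from the left which make the matrix monomial up to upper triangular column operations). -/
theorem bruhat2 {n : ℕ} (M : Matrix (Fin n) (Fin n) ℝ) (hM : IsUnit M.det) :
    ∃ (b c : Matrix (Fin n) (Fin n) ℝ) (w : Equiv.Perm (Fin n)),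
      IsUnit b.det ∧ IsUnit c.det ∧ Up b ∧ Up c ∧ M = b * pm w * c := by
  obtain ⟨b, c, w, hb, hc, h⟩ := bruhat_aux n M hM.ne_zero
  have hdet : M.det = b.det * (pm w).det * c.det := by
    rw [h, Matrix.det_mul, Matrix.det_mul]
  rw [hdet] at hM
  exact ⟨b, c, w, isUnit_of_mul_isUnit_left (isUnit_of_mul_isUnit_left hM),
    isUnit_of_mul_isUnit_right hM, hb, hc, h⟩

end Pool.Agent.H9.IZ
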