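import Pool.Agent.H9.IZ.Defs

set_option autoImplicit false

open MvPolynomial Matrix

namespace Pool.Agent.H9.IZ

/-- TASK Cc. Coefficients of `f(g v)` are continuous in `g` (induction on `f`, `coeff_mul`). -/
theorem coeff_sub_cont {n : ℕ} {ι : Type} [Fintype ι] (f : MvPolynomial (Fin n × ι) ℝ)
    (a : Fin n × ι →₀ ℕ) :
    Continuous fun g : Matrix (Fin n) (Fin n) ℝ => coeff a (sub g f) := by
  classical
  induction f using MvPolynomial.induction_on generalizing a with
  | C r =>
    have h : ∀ g : Matrix (Fin n) (Fin n) ℝ,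
        sub g (C r : MvPolynomial (Fin n × ι) ℝ) = C r := by
      intro g
      unfold sub
      rw [MvPolynomial.algHom_C, MvPolynomial.algebraMap_eq]
    simp only [h]
    exact continuous_const
  | add p q hp hq =>
    have h : ∀ g : Matrix (Fin n) (Fin n) ℝ, sub g (p + q) = sub g p + sub g q := by
      intro g
      unfold sub
      rw [map_add]
    simp only [h, coeff_add]
    exact (hp a).add (hq a)
  | mul_X p q hp =>
    have h : ∀ g : Matrix (Fin n) (Fin n) ℝ,
        sub g (p * X q) = sub g p * ∑ k, C (g q.1 k) * X (k, q.2) := by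
      intro g
      unfold sub
      rw [map_mul, aeval_X]
    simp only [h, coeff_mul]
    refine continuous_finsetSum _ fun x _ => (hp x.1).mul ?_
    have h2 : ∀ g : Matrix (Fin n) (Fin n) ℝ,
        coeff x.2 (∑ k, C (g q.1 k) * X (k, q.2) : MvPolynomial (Fin n × ι) ℝ) =
          ∑ k, g q.1 k * coeff x.2 (X (k, q.2) : MvPolynomial (Fin n × ι) ℝ) := by
      intro g
      rw [coeff_sum]
      exact Finset.sum_congr rfl fun k _ => coeff_C_mul _ _ _
    simp only [h2]
    refine continuous_finsetSum _ fun k _ => ?_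
    exact (continuous_apply_apply q.1 k).mul continuous_const

private theorem sub_diag_coeff {n : ℕ} {ι : Type} [Fintype ι] (D : Fin n → ℝ)
    (p : MvPolynomial (Fin n × ι) ℝ) (a : Fin n × ι →₀ ℕ) :
    coeff a (sub (Matrix.diagonal (fun i => Real.exp (D i))) p) =
      Real.exp (∑ q : Fin n × ι, D q.1 * (a q : ℝ)) * coeff a p := by
  classical
  have hX : ∀ q : Fin n × ι,
      (∑ k, C ((Matrix.diagonal (fun i => Real.exp (D i)) : Matrix (Fin n) (Fin n) ℝ) q.1 k) *
        X (k, q.2) : MvPolynomial (Fin n × ι) ℝ) = C (Real.exp (D q.1)) * X q := by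
    intro q
    rw [Finset.sum_eq_single q.1]
    · rw [Matrix.diagonal_apply_eq]
    · intro k _ hk
      rw [Matrix.diagonal_apply_ne _ hk.symm, C_0, zero_mul]
    · intro h
      exact absurd (Finset.mem_univ _) h
  refine MvPolynomial.induction_on' p ?_ ?_
  · intro b c
    have h1 : sub (Matrix.diagonal (fun i => Real.exp (D i))) (monomial b c) =
        monomial b (Real.exp (∑ q : Fin n × ι, D q.1 * (b q : ℝ)) * c) := by
      unfold sub
      simp only [hX]
      rw [aeval_monomial, Finsupp.prod_fintype _ _ (fun q => pow_zero _)]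
      simp only [mul_pow]
      rw [Finset.prod_mul_distrib]
      have h2 : (∏ q : Fin n × ι, (C (Real.exp (D q.1)) : MvPolynomial (Fin n × ι) ℝ) ^ b q) =
          C (Real.exp (∑ q : Fin n × ι, D q.1 * (b q : ℝ))) := by
        rw [Real.exp_sum, map_prod]
        refine Finset.prod_congr rfl fun q _ => ?_
        rw [← map_pow, ← Real.exp_nat_mul, mul_comm]
      have h3 : (∏ q : Fin n × ι, (X q : MvPolynomial (Fin n × ι) ℝ) ^ b q) = monomial b 1 := by
        rw [MvPolynomial.monomial_eq, C_1, one_mul, Finsupp.prod_fintype _ _ (fun q => pow_zero _)]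
      rw [h2, h3, MvPolynomial.algebraMap_eq, C_mul_monomial, C_mul_monomial, mul_one, mul_comm]
    rw [h1, coeff_monomial, coeff_monomial]
    by_cases h : b = a
    · rw [if_pos h, if_pos h, h]
    · rw [if_neg h, if_neg h, mul_zero]
  · intro p q hp hq
    have h : sub (Matrix.diagonal (fun i => Real.exp (D i))) (p + q) =
        sub (Matrix.diagonal (fun i => Real.exp (D i))) p +
          sub (Matrix.diagonal (fun i => Real.exp (D i))) q := by
      unfold sub
      rw [map_add]
    rw [h, coeff_add, coeff_add, hp, hq, mul_add]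

/-- TASK Cd. -/
theorem coeff_sub_diag {n : ℕ} {ι : Type} [Fintype ι] (f : MvPolynomial (Fin n × ι) ℝ)
    (k : Matrix (Fin n) (Fin n) ℝ) (D : Fin n → ℝ) (a : Fin n × ι →₀ ℕ) :
    coeff a (sub (k * Matrix.diagonal (fun i => Real.exp (D i))) f) =
      Real.exp (∑ q : Fin n × ι, D q.1 * (a q : ℝ)) * coeff a (sub k f) := by
  rw [← sub_mul, sub_diag_coeff]

end Pool.Agent.H9.IZ
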