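import Mathlib

/-!
# Zariski density from invariants: definitions

`ev v f`: the value of `f` at the matrix `v` (rows: the `n` coordinates, columns: the vectors).
`sub g f`: the polynomial `f(g v)`.
-/

set_option autoImplicit false

open MvPolynomial Matrix

namespace Pool.Agent.H9.IZ

/-- the value at the matrix `v` -/
noncomputable def ev {n : ℕ} {ι : Type} (v : Matrix (Fin n) ι ℝ)
    (f : MvPolynomial (Fin n × ι) ℝ) : ℝ :=
  eval (fun q => v q.1 q.2) f

/-- `f(g v)` as a polynomial -/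
noncomputable def sub {n : ℕ} {ι : Type} (g : Matrix (Fin n) (Fin n) ℝ)
    (f : MvPolynomial (Fin n × ι) ℝ) : MvPolynomial (Fin n × ι) ℝ :=
  aeval (fun q : Fin n × ι => ∑ k, C (g q.1 k) * X (k, q.2)) f

theorem ev_sub {n : ℕ} {ι : Type} [Fintype ι] (g : Matrix (Fin n) (Fin n) ℝ)
    (v : Matrix (Fin n) ι ℝ) (f : MvPolynomial (Fin n × ι) ℝ) :
    ev v (sub g f) = ev (g * v) f := by
  unfold ev sub
  rw [aeval_def, eval₂_eq', MvPolynomial.eval_eq' (fun q => (g * v) q.1 q.2) f, map_sum]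
  refine Finset.sum_congr rfl fun d _ => ?_
  rw [map_mul, map_prod, MvPolynomial.algebraMap_eq, eval_C]
  congr 1
  refine Finset.prod_congr rfl fun i _ => ?_
  rw [map_pow, map_sum]
  congr 1
  rw [Matrix.mul_apply]
  refine Finset.sum_congr rfl fun j _ => ?_
  rw [map_mul, eval_C, eval_X]

theorem ext_ev {n : ℕ} {ι : Type} (p q : MvPolynomial (Fin n × ι) ℝ)
    (h : ∀ v : Matrix (Fin n) ι ℝ, ev v p = ev v q) : p = q :=
  MvPolynomial.funext fun x => h (Matrix.of fun i j => x (i, j))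

theorem sub_mul {n : ℕ} {ι : Type} [Fintype ι] (g h : Matrix (Fin n) (Fin n) ℝ)
    (f : MvPolynomial (Fin n × ι) ℝ) : sub h (sub g f) = sub (g * h) f := by
  refine ext_ev _ _ fun v => ?_
  rw [ev_sub, ev_sub, ev_sub, Matrix.mul_assoc]

theorem sub_one {n : ℕ} {ι : Type} [Fintype ι] (f : MvPolynomial (Fin n × ι) ℝ) :
    sub 1 f = f := by
  refine ext_ev _ _ fun v => ?_
  rw [ev_sub, Matrix.one_mul]

theorem sub_smul {n : ℕ} {ι : Type} (g : Matrix (Fin n) (Fin n) ℝ) (c : ℝ)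
    (f : MvPolynomial (Fin n × ι) ℝ) : sub g (C c * f) = C c * sub g f := by
  unfold sub
  rw [map_mul, MvPolynomial.algHom_C, MvPolynomial.algebraMap_eq]

/-- all monomials have weight at least `1` for the row weights `B` -/
def Wt {n : ℕ} {ι : Type} [Fintype ι] (B : Fin n → ℝ) (f : MvPolynomial (Fin n × ι) ℝ) : Prop :=
  ∀ a ∈ f.support, 1 ≤ ∑ q : Fin n × ι, B q.1 * (a q : ℝ)

/-- `(g, B)` destabilizes `f` -/
def Dst {n : ℕ} {ι : Type} [Fintype ι] (f : MvPolynomial (Fin n × ι) ℝ)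
    (g : Matrix (Fin n) (Fin n) ℝ) (B : Fin n → ℝ) : Prop :=
  IsUnit g.det ∧ ∑ i, B i = 0 ∧ Wt B (sub g f)

/-- upper triangular -/
def Up {n : ℕ} (b : Matrix (Fin n) (Fin n) ℝ) : Prop := ∀ i j, j < i → b i j = 0

/-- the permutation matrix: the entry `(i, w i)` is `1` -/
def pm {n : ℕ} (w : Equiv.Perm (Fin n)) : Matrix (Fin n) (Fin n) ℝ :=
  Matrix.of fun i j => if w i = j then 1 else 0

end Pool.Agent.H9.IZ
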