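import Pool.Agent.H9.IZ.Sv
import Pool.Agent.H9.IZ.Cc

set_option autoImplicit false

open MvPolynomial Matrix

namespace Pool.Agent.H9.IZ

private theorem ds_pow {n : ℕ} {ι : Type} [Fintype ι] (f : MvPolynomial (Fin n × ι) ℝ)
    (A : Matrix (Fin n) (Fin n) ℝ) (c : ℝ) (h : sub A f = C c * f) (t : ℕ) :
    sub (A ^ t) f = C (c ^ t) * f := by
  induction t with
  | zero => rw [pow_zero, pow_zero, sub_one, C_1, one_mul]
  | succ t ih =>
    rw [pow_succ, ← sub_mul, ih, sub_smul, h, pow_succ, C_mul, mul_assoc]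

private theorem ds_key {n : ℕ} {ι : Type} [Fintype ι] (f : MvPolynomial (Fin n × ι) ℝ)
    (A : Matrix (Fin n) (Fin n) ℝ) (c : ℝ) (h : sub A f = C c * f) (t : ℕ)
    (k l : Matrix (Fin n) (Fin n) ℝ) (D : Fin n → ℝ) (hl : lᵀ * l = 1)
    (hk : A ^ t = k * Matrix.diagonal (fun i => Real.exp (D i)) * l) (a : Fin n × ι →₀ ℕ) :
    Real.exp (∑ q : Fin n × ι, D q.1 * (a q : ℝ)) * coeff a (sub k f) =
      c ^ t * coeff a (sub lᵀ f) := by
  have h1 : k * Matrix.diagonal (fun i => Real.exp (D i)) = A ^ t * lᵀ := by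
    rw [hk, Matrix.mul_assoc, mul_eq_one_comm.1 hl, Matrix.mul_one]
  rw [← coeff_sub_diag, h1, ← sub_mul, ds_pow f A c h t, sub_smul, coeff_C_mul]

private theorem ds_ent {n : ℕ} (k : Matrix (Fin n) (Fin n) ℝ) (hk : kᵀ * k = 1) (i j : Fin n) :
    |k i j| ≤ 1 := by
  have h1 := congrFun (congrFun hk j) j
  rw [Matrix.mul_apply, Matrix.one_apply_eq] at h1
  have h2 : k i j * k i j ≤ ∑ x, kᵀ j x * k x j :=
    Finset.single_le_sum (f := fun x => kᵀ j x * k x j) (fun x _ => mul_self_nonneg (k x j))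
      (Finset.mem_univ i)
  rw [h1] at h2
  exact abs_le_one_iff_mul_self_le_one.2 h2

/-- TASK Ds. A semi-invariant with `|c| < 1` is destabilized. Proof: `A ^ t = k_t exp(D_t) l_t` (svd), so
`exp(D_t a) coeff a (sub k_t f) = c ^ t coeff a (sub (l_t)ᵀ f)`; the orthogonal matrices are compact and
`D_t / t` is bounded (svd_bound): along a subsequence `k_t → k`, `D_t / t → D`. The right side is at most
`|c| ^ t M_a` (`coeff_sub_cont` on the compact set of the orthogonal matrices). If `coeff a (sub k f) ≠ 0`,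
then `|coeff a (sub k_t f)| ≥ δ > 0` in the end, so `∑ D q.1 (a q) ≤ log |c| < 0`. Take `g = k`,
`B = D / log |c|`. -/
theorem dst_of {n : ℕ} {ι : Type} [Fintype ι] (f : MvPolynomial (Fin n × ι) ℝ)
    (A : Matrix (Fin n) (Fin n) ℝ) (hA : A.det = 1) (c : ℝ) (hc0 : c ≠ 0) (hc : |c| < 1)
    (h : sub A f = C c * f) :
    ∃ (g : Matrix (Fin n) (Fin n) ℝ) (B : Fin n → ℝ), Dst f g B := by
  have hdet : ∀ t : ℕ, (A ^ t).det = 1 := fun t => by rw [Matrix.det_pow, hA, one_pow]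
  choose k l D hk hl hD hA' using fun t : ℕ => svd (A ^ t) (hdet t)
  obtain ⟨R, hR, hbd⟩ := svd_bound A hA
  have hb : ∀ s i, |D (s + 1) i| ≤ R * ((s + 1 : ℕ) : ℝ) := fun s i =>
    hbd (s + 1) (k (s + 1)) (l (s + 1)) (D (s + 1)) (Nat.succ_pos s) (hk _) (hl _) (hD _) (hA' _) i
  have hQ : IsCompact (Set.univ.pi fun _ : Fin n => Set.univ.pi fun _ : Fin n => Set.Icc (-1 : ℝ) 1) :=
    isCompact_univ_pi fun _ => isCompact_univ_pi fun _ => isCompact_Icc
  have hK := hQ.prod (isCompact_univ_pi fun _ : Fin n => isCompact_Icc (a := -R) (b := R))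
  have hpos : ∀ s : ℕ, (0 : ℝ) < ((s + 1 : ℕ) : ℝ) := fun s => Nat.cast_pos.2 (Nat.succ_pos s)
  obtain ⟨g, E, φ, hφ, hg, hE⟩ : ∃ (g : Matrix (Fin n) (Fin n) ℝ) (E : Fin n → ℝ) (φ : ℕ → ℕ), StrictMono φ ∧
      Filter.Tendsto (fun s => k (φ s + 1)) Filter.atTop (nhds g) ∧
      Filter.Tendsto (fun s => fun i => D (φ s + 1) i / ((φ s + 1 : ℕ) : ℝ)) Filter.atTop (nhds E) := by
    let x : ℕ → (Fin n → Fin n → ℝ) × (Fin n → ℝ) := fun s =>
      (k (s + 1), fun i => D (s + 1) i / ((s + 1 : ℕ) : ℝ))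
    obtain ⟨⟨g, E⟩, -, φ, hφ, hlim⟩ := hK.tendsto_subseq (x := x) (fun s =>
      ⟨fun i _ j _ => abs_le.1 (ds_ent _ (hk _) i j), fun i _ => abs_le.1 (by
        rw [abs_div, abs_of_pos (hpos s), div_le_iff₀ (hpos s)]
        exact hb s i)⟩)
    exact ⟨g, E, φ, hφ, (continuous_fst.tendsto _).comp hlim, (continuous_snd.tendsto _).comp hlim⟩
  have hEi := fun i => tendsto_pi_nhds.1 hE i
  have hg1 : gᵀ * g = 1 := by
    have h1 : Continuous fun m : Matrix (Fin n) (Fin n) ℝ => mᵀ * m :=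
      Continuous.matrix_mul (Continuous.matrix_transpose continuous_id) continuous_id
    have h2 := (h1.tendsto g).comp hg
    have h3 : ((fun m : Matrix (Fin n) (Fin n) ℝ => mᵀ * m) ∘ fun s => k (φ s + 1)) = fun _ => 1 :=
      funext fun s => hk _
    rw [h3] at h2
    exact tendsto_nhds_unique h2 tendsto_const_nhds
  have hE0 : ∑ i, E i = 0 := by
    have h1 : Filter.Tendsto (fun s => ∑ i, D (φ s + 1) i / ((φ s + 1 : ℕ) : ℝ)) Filter.atTop (nhds (∑ i, E i)) :=
      tendsto_finsetSum _ fun i _ => hEi i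
    have h2 : (fun s => ∑ i, D (φ s + 1) i / ((φ s + 1 : ℕ) : ℝ)) = fun _ => 0 := by
      funext s
      rw [← Finset.sum_div, hD, zero_div]
    rw [h2] at h1
    exact tendsto_nhds_unique h1 tendsto_const_nhds
  have hT : Filter.Tendsto (fun s => ((φ s + 1 : ℕ) : ℝ)) Filter.atTop Filter.atTop :=
    tendsto_natCast_atTop_atTop.comp ((Filter.tendsto_add_atTop_nat 1).comp hφ.tendsto_atTop)
  have hc1 : 0 < |c| := abs_pos.2 hc0
  have hw : ∀ a : Fin n × ι →₀ ℕ, coeff a (sub g f) ≠ 0 →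
      ∑ q : Fin n × ι, E q.1 * (a q : ℝ) ≤ Real.log |c| := by
    intro a ha
    obtain ⟨M, hM⟩ := hQ.exists_bound_of_continuousOn (f := fun m => coeff a (sub m f))
      (coeff_sub_cont f a).continuousOn
    have hδ : 0 < |coeff a (sub g f)| / 2 := half_pos (abs_pos.2 ha)
    have h1 : Filter.Tendsto (fun s => |coeff a (sub (k (φ s + 1)) f)|) Filter.atTop
        (nhds |coeff a (sub g f)|) := (((coeff_sub_cont f a).tendsto g).comp hg).abs
    have h2 : ∀ᶠ s in Filter.atTop, |coeff a (sub g f)| / 2 ≤ |coeff a (sub (k (φ s + 1)) f)| :=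
      h1.eventually_const_le (half_lt_self (abs_pos.2 ha))
    have hM1 : 0 < max M 1 := lt_max_of_lt_right one_pos
    have h3 : ∀ᶠ s in Filter.atTop, ∑ q : Fin n × ι, D (φ s + 1) q.1 / ((φ s + 1 : ℕ) : ℝ) * (a q : ℝ) ≤
        Real.log |c| + (Real.log (max M 1) - Real.log (|coeff a (sub g f)| / 2)) / ((φ s + 1 : ℕ) : ℝ) := by
      filter_upwards [h2] with s hs
      have hp := hpos (φ s)
      have h4 := congrArg abs (ds_key f A c h (φ s + 1) _ _ _ (hl _) (hA' _) a)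
      rw [abs_mul, abs_mul, abs_pow, Real.abs_exp] at h4
      have h5 : |coeff a (sub (l (φ s + 1))ᵀ f)| ≤ max M 1 :=
        (hM (l (φ s + 1))ᵀ fun i _ j _ => abs_le.1 (ds_ent _ (hl _) j i)).trans (le_max_left _ _)
      have h6 : Real.exp (∑ q : Fin n × ι, D (φ s + 1) q.1 * (a q : ℝ)) * (|coeff a (sub g f)| / 2) ≤
          |c| ^ (φ s + 1) * max M 1 :=
        (mul_le_mul_of_nonneg_left hs (Real.exp_pos _).le).trans
          (h4.le.trans (mul_le_mul_of_nonneg_left h5 (pow_nonneg hc1.le _)))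
      have h7 := Real.log_le_log (mul_pos (Real.exp_pos _) hδ) h6
      rw [Real.log_mul (Real.exp_pos _).ne' hδ.ne', Real.log_exp,
        Real.log_mul (pow_pos hc1 _).ne' hM1.ne', Real.log_pow] at h7
      have h8 : ∑ q : Fin n × ι, D (φ s + 1) q.1 / ((φ s + 1 : ℕ) : ℝ) * (a q : ℝ) =
          (∑ q : Fin n × ι, D (φ s + 1) q.1 * (a q : ℝ)) / ((φ s + 1 : ℕ) : ℝ) := by
        rw [Finset.sum_div]
        exact Finset.sum_congr rfl fun q _ => by ring
      rw [h8, div_le_iff₀ hp, add_mul, div_mul_cancel₀ _ hp.ne']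
      linarith
    refine le_of_tendsto_of_tendsto (tendsto_finsetSum _ fun q _ => (hEi q.1).mul_const (a q : ℝ)) ?_ h3
    have h9 := (tendsto_const_nhds (x := Real.log (max M 1) - Real.log (|coeff a (sub g f)| / 2))).div_atTop hT
    have h10 := (tendsto_const_nhds (x := Real.log |c|)).add h9
    rwa [add_zero] at h10
  have hlog : Real.log |c| < 0 := Real.log_neg hc1 hc
  refine ⟨g, fun i => E i / Real.log |c|, Matrix.isUnit_det_of_left_inverse hg1, ?_, fun a ha => ?_⟩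
  · rw [← Finset.sum_div, hE0, zero_div]
  · have h1 := hw a (mem_support_iff.1 ha)
    have h2 : ∑ q : Fin n × ι, E q.1 / Real.log |c| * (a q : ℝ) =
        (∑ q : Fin n × ι, E q.1 * (a q : ℝ)) / Real.log |c| := by
      rw [Finset.sum_div]
      exact Finset.sum_congr rfl fun q _ => by ring
    rw [h2, le_div_iff_of_neg hlog, one_mul]
    exact h1

end Pool.Agent.H9.IZ
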