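import Pool.Agent.H9.IZ.Zf
import Pool.Agent.H9.IZ.Av
import Pool.Agent.H9.IR.Sd
import Pool.Agent.H9.IH.Fin

/-!
# Zariski density of cocompact groups
-/

set_option autoImplicit false

open MvPolynomial Matrix Module

namespace Pool.Agent.H9.IZ

open Pool.Agent.H9.IQ (flat)
open Pool.Agent.H9.IR (evM LInv)

/-- polynomials are continuously differentiable -/
private theorem eval_contDiff {n d : ℕ} (P : MvPolynomial (Fin n × Fin d) ℝ) :
    ContDiff ℝ 1 fun v : Fin d → Fin n → ℝ => eval (flat v) P := by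
  have h : (fun v : Fin d → Fin n → ℝ => eval (flat v) P) = fun v =>
      ∑ a ∈ P.support, coeff a P * ∏ q : Fin n × Fin d, v q.2 q.1 ^ a q := by
    funext v
    rw [MvPolynomial.eval_eq' (flat v) P]
    rfl
  rw [h]
  refine ContDiff.sum fun a _ => contDiff_const.mul (contDiff_prod fun q _ => ContDiff.pow ?_ _)
  have h1 : ContDiff ℝ 1 fun v : Fin d → Fin n → ℝ => v q.2 := contDiff_apply ℝ (Fin n → ℝ) q.2
  exact (contDiff_apply ℝ ℝ q.1).comp h1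

/-- the hypothesis on the relative invariants -/
def AllRel {m n : ℕ} (ψ : SpecialLinearGroup (Fin m) ℝ →* SpecialLinearGroup (Fin n) ℝ) : Prop :=
  ∀ d : ℕ, 0 < d → d < n → ∃ (k : ℕ) (P : MvPolynomial (Fin n × Fin d) ℝ),
    0 < k ∧ P ≠ 0 ∧ Pool.Agent.H9.IQ.Wt k P ∧ ∀ x, ∀ v : Fin d → Fin n → ℝ,
      eval (flat fun j => (ψ x : Matrix (Fin n) (Fin n) ℝ)ᵀ *ᵥ v j) P = eval (flat v) P

theorem invariants {m n : ℕ}
    (ψ : SpecialLinearGroup (Fin m) ℝ →* SpecialLinearGroup (Fin n) ℝ)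
    (hP : AllRel ψ) (Γ : Subgroup (SpecialLinearGroup (Fin n) ℝ))
    (hc : CompactSpace (MulAction.orbitRel.Quotient Γ (SpecialLinearGroup (Fin n) ℝ ⧸ ψ.range)))
    {ι : Type} [Fintype ι] (f : MvPolynomial (Fin n × ι) ℝ)
    (hf : ∀ γ ∈ Γ, ∀ v, ev ((γ : Matrix (Fin n) (Fin n) ℝ) * v) f = ev v f)
    (g : SpecialLinearGroup (Fin n) ℝ) (v : Matrix (Fin n) ι ℝ) :
    ev ((g : Matrix (Fin n) (Fin n) ℝ) * v) f = ev v f := by
  refine any_vectors Γ (fun f hf => ?_) f hf g v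
  refine Pool.Agent.H9.IR.same ψ.range Γ (Pool.Agent.H9.IP.cover ψ Γ hc) ?_ f hf
  intro d hd hdn
  obtain ⟨k, P, hk, hP0, hPw, hPi⟩ := hP d hd hdn
  refine ⟨k, P, hk, hP0, hPw, ?_⟩
  rintro _ ⟨x, rfl⟩ v
  exact hPi x v

/-- cocompact and irreducible -/
theorem dense_of_irreducible {m n : ℕ}
    (ψ : SpecialLinearGroup (Fin m) ℝ →* SpecialLinearGroup (Fin n) ℝ)
    (hP : AllRel ψ) (Γ : Subgroup (SpecialLinearGroup (Fin n) ℝ))
    (hc : CompactSpace (MulAction.orbitRel.Quotient Γ (SpecialLinearGroup (Fin n) ℝ ⧸ ψ.range)))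
    (hirr : ∀ U : Submodule ℝ (Fin n → ℝ),
      (∀ γ ∈ Γ, ∀ u ∈ U, (γ : Matrix (Fin n) (Fin n) ℝ) *ᵥ u ∈ U) → U = ⊥ ∨ U = ⊤)
    (q : MvPolynomial (Fin n × Fin n) ℝ)
    (hq : ∀ γ ∈ Γ, ev (γ : Matrix (Fin n) (Fin n) ℝ) q = 0)
    (g : SpecialLinearGroup (Fin n) ℝ) : ev (g : Matrix (Fin n) (Fin n) ℝ) q = 0 :=
  zariski Γ (fun _ f hf g v => invariants ψ hP Γ hc f hf g v) hirr q hq g

/-- cocompact and discontinuous groups are irreducible -/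
theorem irreducible_of_pd {m n : ℕ}
    (ψ : SpecialLinearGroup (Fin m) ℝ →* SpecialLinearGroup (Fin n) ℝ)
    (hP : AllRel ψ) (Γ : Subgroup (SpecialLinearGroup (Fin n) ℝ))
    (hpd : ∀ K : Set (SpecialLinearGroup (Fin n) ℝ ⧸ ψ.range), IsCompact K →
      {γ : Γ | ∃ x ∈ K, γ • x ∈ K}.Finite)
    (hc : CompactSpace (MulAction.orbitRel.Quotient Γ (SpecialLinearGroup (Fin n) ℝ ⧸ ψ.range)))
    (U : Submodule ℝ (Fin n → ℝ))
    (hU : ∀ γ ∈ Γ, ∀ u ∈ U, (γ : Matrix (Fin n) (Fin n) ℝ) *ᵥ u ∈ U) : U = ⊥ ∨ U = ⊤ := by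
  by_contra hno
  push Not at hno
  have h1 : 0 < finrank ℝ U := by
    rw [Nat.pos_iff_ne_zero]
    intro h
    exact hno.1 (Submodule.finrank_eq_zero.1 h)
  have h2 : finrank ℝ U < n := by
    have h3 := Submodule.finrank_lt hno.2
    rwa [finrank_fin_fun] at h3
  obtain ⟨k, P, hk, hP0, hPw, hPi⟩ := hP (n - finrank ℝ U) (by omega) (by omega)
  refine Pool.Agent.H9.IH.main_dual m n (n - finrank ℝ U) k (by omega) (by omega) hk ψ
    (fun v => eval (flat v) P) (eval_contDiff P) ?_ hPi hPw Γ hpd hc Γ le_rfl (by simp) U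
    (by omega) hU
  by_contra h3
  push Not at h3
  apply hP0
  refine MvPolynomial.funext fun x => ?_
  rw [map_zero]
  exact h3 fun j i => x (i, j)

theorem dense_of_pd {m n : ℕ}
    (ψ : SpecialLinearGroup (Fin m) ℝ →* SpecialLinearGroup (Fin n) ℝ)
    (hP : AllRel ψ) (Γ : Subgroup (SpecialLinearGroup (Fin n) ℝ))
    (hpd : ∀ K : Set (SpecialLinearGroup (Fin n) ℝ ⧸ ψ.range), IsCompact K →
      {γ : Γ | ∃ x ∈ K, γ • x ∈ K}.Finite)
    (hc : CompactSpace (MulAction.orbitRel.Quotient Γ (SpecialLinearGroup (Fin n) ℝ ⧸ ψ.range)))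
    (q : MvPolynomial (Fin n × Fin n) ℝ)
    (hq : ∀ γ ∈ Γ, ev (γ : Matrix (Fin n) (Fin n) ℝ) q = 0)
    (g : SpecialLinearGroup (Fin n) ℝ) : ev (g : Matrix (Fin n) (Fin n) ℝ) q = 0 :=
  dense_of_irreducible ψ hP Γ hc (irreducible_of_pd ψ hP Γ hpd hc) q hq g

end Pool.Agent.H9.IZ
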