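import Mathlib
import Pool.Agent.H21.CQ.Perf
import Pool.Agent.H9.IQ.CoreD

/-!
# Polynomial relative invariants from invariant subspaces
-/

set_option autoImplicit false

open MvPolynomial Matrix Module

namespace Pool.Agent.H9.IZ

open Pool.Agent.H9.IQ (flat)

/-- the square of the determinant of the products of the `v j` with a basis -/
private noncomputable def pj {n d : ℕ} (J : Matrix (Fin n) (Fin d) ℝ) :
    MvPolynomial (Fin n × Fin d) ℝ :=
  (Matrix.of fun a b => ∑ k, MvPolynomial.C (J k a) *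
    (X (k, b) : MvPolynomial (Fin n × Fin d) ℝ)).det ^ 2

private theorem eval_pj {n d : ℕ} (J : Matrix (Fin n) (Fin d) ℝ) (v : Fin d → Fin n → ℝ) :
    eval (flat v) (pj J) = (Jᵀ * (Matrix.of v)ᵀ).det ^ 2 := by
  unfold pj
  rw [map_pow, RingHom.map_det]
  congr 2
  ext a b
  rw [RingHom.mapMatrix_apply, Matrix.map_apply, Matrix.of_apply, map_sum, Matrix.mul_apply]
  refine Finset.sum_congr rfl fun k _ => ?_
  rw [map_mul, eval_C, eval_X]
  rfl

theorem pol_of_subspace {m n d : ℕ}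
    (ψ : SpecialLinearGroup (Fin m) ℝ →* SpecialLinearGroup (Fin n) ℝ)
    (W : Submodule ℝ (Fin n → ℝ))
    (hW : ∀ x, ∀ w ∈ W, (ψ x : Matrix (Fin n) (Fin n) ℝ) *ᵥ w ∈ W)
    (hd : finrank ℝ W = d) :
    ∃ P : MvPolynomial (Fin n × Fin d) ℝ, P ≠ 0 ∧ Pool.Agent.H9.IQ.Wt 2 P ∧
      ∀ x, ∀ v : Fin d → Fin n → ℝ,
        eval (flat fun j => (ψ x : Matrix (Fin n) (Fin n) ℝ)ᵀ *ᵥ v j) P = eval (flat v) P := by
  classical
  have hq : finrank ℝ (Fin d → ℝ) = finrank ℝ W := by rw [finrank_fin_fun, hd]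
  let e : (Fin d → ℝ) ≃ₗ[ℝ] W := LinearEquiv.ofFinrankEq _ _ hq
  let t : (Fin d → ℝ) →ₗ[ℝ] (Fin n → ℝ) := W.subtype.comp e.toLinearMap
  have hts : Function.Injective t := W.injective_subtype.comp e.injective
  obtain ⟨r, hr⟩ := t.exists_leftInverse_of_injective (LinearMap.ker_eq_bot.2 hts)
  let J : Matrix (Fin n) (Fin d) ℝ := LinearMap.toMatrix' t
  let L : Matrix (Fin d) (Fin n) ℝ := LinearMap.toMatrix' r
  have hJv : ∀ x, J *ᵥ x = t x := fun x => by
    rw [← Matrix.toLin'_apply, Matrix.toLin'_toMatrix']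
  have hLJ : L * J = 1 := by
    have h := congrArg LinearMap.toMatrix' hr
    rwa [LinearMap.toMatrix'_comp, LinearMap.toMatrix'_id] at h
  let K : SpecialLinearGroup (Fin m) ℝ → Matrix (Fin d) (Fin d) ℝ := fun x =>
    L * (ψ x : Matrix (Fin n) (Fin n) ℝ) * J
  have hJL : ∀ w ∈ W, J *ᵥ (L *ᵥ w) = w := by
    intro w hw
    have h1 : w = J *ᵥ (e.symm ⟨w, hw⟩) := by
      rw [hJv]
      show w = (e (e.symm ⟨w, hw⟩) : Fin n → ℝ)
      rw [LinearEquiv.apply_symm_apply]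
    have h2 : L *ᵥ (J *ᵥ (e.symm ⟨w, hw⟩)) = e.symm ⟨w, hw⟩ := by
      rw [Matrix.mulVec_mulVec, hLJ, Matrix.one_mulVec]
    rw [h1, h2]
  have hK : ∀ x, (ψ x : Matrix (Fin n) (Fin n) ℝ) * J = J * K x := by
    intro x
    apply Matrix.ext_of_mulVec_single
    intro i
    set y : Fin d → ℝ := Pi.single i 1 with hy
    have h1 : J *ᵥ y ∈ W := by
      rw [hJv]
      exact (e y).2
    have h2 := hJL _ (hW x _ h1)
    rw [← Matrix.mulVec_mulVec, ← h2]
    show J *ᵥ (L *ᵥ ((ψ x : Matrix (Fin n) (Fin n) ℝ) *ᵥ (J *ᵥ y))) =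
      (J * (L * (ψ x : Matrix (Fin n) (Fin n) ℝ) * J)) *ᵥ y
    simp only [Matrix.mulVec_mulVec, Matrix.mul_assoc]
  have hK1 : K 1 = 1 := by
    show L * ((ψ 1 : SpecialLinearGroup (Fin n) ℝ) : Matrix (Fin n) (Fin n) ℝ) * J = 1
    rw [map_one, Matrix.SpecialLinearGroup.coe_one, Matrix.mul_one, hLJ]
  have hKm : ∀ x y, K (x * y) = K x * K y := by
    intro x y
    show L * ((ψ (x * y) : SpecialLinearGroup (Fin n) ℝ) : Matrix (Fin n) (Fin n) ℝ) * J =
      K x * K y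
    rw [map_mul, Matrix.SpecialLinearGroup.coe_mul, Matrix.mul_assoc, Matrix.mul_assoc, hK y]
    show L * ((ψ x : Matrix (Fin n) (Fin n) ℝ) * (J * K y)) =
      L * (ψ x : Matrix (Fin n) (Fin n) ℝ) * J * K y
    simp only [Matrix.mul_assoc]
  let χ : SpecialLinearGroup (Fin m) ℝ →* ℝ :=
    { toFun := fun x => (K x).det ^ 2
      map_one' := by rw [hK1, Matrix.det_one, one_pow]
      map_mul' := fun x y => by rw [hKm, Matrix.det_mul, mul_pow] }
  have hχ : ∀ x, 0 < χ x := by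
    intro x
    have h1 : χ x * χ x⁻¹ = 1 := by rw [← map_mul, mul_inv_cancel, map_one]
    have h2 : 0 ≤ χ x := sq_nonneg (K x).det
    rcases h2.lt_or_eq with h | h
    · exact h
    · rw [← h, zero_mul] at h1
      exact absurd h1 zero_ne_one
  have hχ1 : ∀ x, (K x).det ^ 2 = 1 := fun x => Pool.Agent.H21.CQ.chi_eq_one χ hχ x
  refine ⟨pj J, ?_, ?_, ?_⟩
  · intro h0
    have h1 := eval_pj J fun j => L j
    rw [h0, map_zero] at h1
    have h2 : (Matrix.of fun j => L j)ᵀ = Lᵀ := rfl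
    rw [h2, ← Matrix.transpose_mul, hLJ, Matrix.transpose_one, Matrix.det_one, one_pow] at h1
    exact zero_ne_one h1
  · intro A v
    rw [eval_pj, eval_pj]
    have h1 : (Matrix.of fun j => ∑ i, A i j • v i)ᵀ = (Matrix.of v)ᵀ * A := by
      ext i j
      rw [Matrix.mul_apply, Matrix.transpose_apply, Matrix.of_apply, Finset.sum_apply]
      refine Finset.sum_congr rfl fun p _ => ?_
      rw [Pi.smul_apply, smul_eq_mul, mul_comm]
      rfl
    rw [h1, ← Matrix.mul_assoc, Matrix.det_mul, mul_pow, mul_comm]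
  · intro x v
    rw [eval_pj, eval_pj]
    have h1 : (Matrix.of fun j => (ψ x : Matrix (Fin n) (Fin n) ℝ)ᵀ *ᵥ v j)ᵀ =
        (ψ x : Matrix (Fin n) (Fin n) ℝ)ᵀ * (Matrix.of v)ᵀ := by
      ext i j
      rw [Matrix.mul_apply]
      rfl
    rw [h1, ← Matrix.mul_assoc, ← Matrix.transpose_mul, hK, Matrix.transpose_mul,
      Matrix.mul_assoc, Matrix.det_mul, Matrix.det_transpose, mul_pow, hχ1, one_mul]

end Pool.Agent.H9.IZ
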