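import Pool.Agent.H9.IZ.Defs

set_option autoImplicit false

open MvPolynomial Matrix

namespace Pool.Agent.H9.IZ

namespace MnAux

theorem deg_sub {n : ℕ} {ι : Type} [Fintype ι] (g : Matrix (Fin n) (Fin n) ℝ)
    (f : MvPolynomial (Fin n × ι) ℝ) : (sub g f).totalDegree ≤ f.totalDegree := by
  unfold sub
  rw [aeval_def, eval₂_eq']
  refine (totalDegree_finsetSum _ _).trans ?_
  refine Finset.sup_le fun d hd => ?_
  refine (totalDegree_mul _ _).trans ?_
  rw [MvPolynomial.algebraMap_eq, totalDegree_C, zero_add]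
  refine (totalDegree_finsetProd _ _).trans ?_
  have h1 : ∀ i ∈ (Finset.univ : Finset (Fin n × ι)),
      ((∑ k, C (g i.1 k) * X (k, i.2) : MvPolynomial (Fin n × ι) ℝ) ^ d i).totalDegree ≤ d i := by
    intro i _
    refine (totalDegree_pow _ _).trans ?_
    have h2 : (∑ k, C (g i.1 k) * X (k, i.2) : MvPolynomial (Fin n × ι) ℝ).totalDegree ≤ 1 := by
      refine (totalDegree_finsetSum _ _).trans ?_
      refine Finset.sup_le fun k _ => ?_
      refine (totalDegree_mul _ _).trans ?_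
      rw [totalDegree_C, zero_add, totalDegree_X]
    calc d i * _ ≤ d i * 1 := Nat.mul_le_mul_left _ h2
      _ = d i := mul_one _
  refine (Finset.sum_le_sum h1).trans ?_
  have h3 := le_totalDegree hd
  rw [Finsupp.sum_fintype _ _ (fun _ => rfl)] at h3
  exact h3

/-- the condition for a finite set of exponents -/
def Cd {n : ℕ} {ι : Type} [Fintype ι] (s : Finset ((Fin n × ι) →₀ ℕ)) (B : Fin n → ℝ) : Prop :=
  ∑ i, B i = 0 ∧ ∀ a ∈ s, 1 ≤ ∑ q : Fin n × ι, B q.1 * (a q : ℝ)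

theorem min_one {n : ℕ} {ι : Type} [Fintype ι] (s : Finset ((Fin n × ι) →₀ ℕ))
    (h : ∃ B, Cd s B) : ∃ B, Cd s B ∧ ∀ B', Cd s B' → ∑ i, B i ^ 2 ≤ ∑ i, B' i ^ 2 := by
  obtain ⟨B0, hB0⟩ := h
  obtain ⟨R, hR⟩ : ∃ R, R = ∑ i, B0 i ^ 2 := ⟨_, rfl⟩
  obtain ⟨K, hK⟩ : ∃ K : Set (Fin n → ℝ), K = {B | Cd s B ∧ ∑ i, B i ^ 2 ≤ R} := ⟨_, rfl⟩
  have hcl : IsClosed K := by
    rw [hK]
    unfold Cd
    have h1 : IsClosed {B : Fin n → ℝ | ∑ i, B i = 0} :=
      isClosed_eq (by fun_prop) continuous_const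
    have h2 : IsClosed {B : Fin n → ℝ | ∀ a ∈ s, 1 ≤ ∑ q : Fin n × ι, B q.1 * (a q : ℝ)} := by
      have h3 : {B : Fin n → ℝ | ∀ a ∈ s, 1 ≤ ∑ q : Fin n × ι, B q.1 * (a q : ℝ)} =
          ⋂ a ∈ s, {B : Fin n → ℝ | 1 ≤ ∑ q : Fin n × ι, B q.1 * (a q : ℝ)} := by
        ext B
        simp only [Set.mem_ofPred_eq, Set.mem_iInter]
      rw [h3]
      exact isClosed_biInter fun a _ => isClosed_le continuous_const (by fun_prop)
    have h4 : IsClosed {B : Fin n → ℝ | ∑ i, B i ^ 2 ≤ R} :=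
      isClosed_le (by fun_prop) continuous_const
    exact (h1.inter h2).inter h4
  have hsub : K ⊆ Set.Icc (fun _ => -(R + 1)) (fun _ => R + 1) := by
    intro B hB
    rw [hK] at hB
    have h5 : ∀ i, B i ^ 2 ≤ R := fun i =>
      (Finset.single_le_sum (f := fun i => B i ^ 2) (fun j _ => sq_nonneg (B j))
        (Finset.mem_univ i)).trans hB.2
    constructor
    · intro i
      change -(R + 1) ≤ B i
      nlinarith [h5 i]
    · intro i
      change B i ≤ R + 1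
      nlinarith [h5 i]
  have hcp : IsCompact K := isCompact_Icc.of_isClosed_subset hcl hsub
  have hne : K.Nonempty := ⟨B0, by rw [hK]; exact ⟨hB0, hR.ge⟩⟩
  obtain ⟨B, hB, hmin⟩ := hcp.exists_isMinOn hne
    (f := fun B : Fin n → ℝ => ∑ i, B i ^ 2) (by fun_prop)
  have hB1 : Cd s B ∧ ∑ i, B i ^ 2 ≤ R := by
    rw [hK] at hB
    exact hB
  refine ⟨B, hB1.1, fun B' hB' => ?_⟩
  rcases le_or_gt (∑ i, B' i ^ 2) R with hc | hc
  · have hB2 : B' ∈ K := by
      rw [hK]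
      exact ⟨hB', hc⟩
    exact hmin hB2
  · exact hB1.2.trans hc.le

end MnAux

open MnAux in
/-- TASK Mn. A destabilizing pair with `∑ B i ^ 2` minimal. `Dst f g B` depends on `g` only through the
finite set `(sub g f).support`, a subset of the finite set of exponents of total degree at most
`f.totalDegree`, so there are finitely many cases; in each case the set of the `B` is closed, and
`∑ B i ^ 2` has a minimum on it (compactness of `{∑ B i ^ 2 ≤ ∑ B0 i ^ 2}`). -/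
theorem exists_min {n : ℕ} {ι : Type} [Fintype ι] (f : MvPolynomial (Fin n × ι) ℝ)
    (h : ∃ (g : Matrix (Fin n) (Fin n) ℝ) (B : Fin n → ℝ), Dst f g B) :
    ∃ (g : Matrix (Fin n) (Fin n) ℝ) (B : Fin n → ℝ), Dst f g B ∧
      ∀ (g' : Matrix (Fin n) (Fin n) ℝ) (B' : Fin n → ℝ), Dst f g' B' →
        ∑ i, B i ^ 2 ≤ ∑ i, B' i ^ 2 := by
  classical
  have hm : ∀ s : Finset ((Fin n × ι) →₀ ℕ), ∃ B : Fin n → ℝ, (∃ B, Cd s B) →
      (Cd s B ∧ ∀ B', Cd s B' → ∑ i, B i ^ 2 ≤ ∑ i, B' i ^ 2) := by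
    intro s
    by_cases hs : ∃ B, Cd s B
    · obtain ⟨B, hB⟩ := min_one s hs
      exact ⟨B, fun _ => hB⟩
    · exact ⟨fun _ => 0, fun h' => absurd h' hs⟩
  choose Bf hBf using hm
  obtain ⟨F, hF⟩ : ∃ F : Set (Finset ((Fin n × ι) →₀ ℕ)), F = {s | ∃ g : Matrix (Fin n) (Fin n) ℝ,
    IsUnit g.det ∧ (sub g f).support = s ∧ ∃ B, Cd s B} := ⟨_, rfl⟩
  have hfin : F.Finite := by
    have h1 : (Set.Iic (Finsupp.equivFunOnFinite.symm
        (fun _ : Fin n × ι => f.totalDegree))).Finite := Set.finite_Iic _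
    refine (Finset.finite_toSet h1.toFinset.powerset).subset ?_
    intro s hs
    rw [hF] at hs
    obtain ⟨g, -, hg, -⟩ := hs
    rw [Finset.mem_coe, Finset.mem_powerset]
    intro a ha
    rw [Set.Finite.mem_toFinset, Set.mem_Iic]
    intro i
    change a i ≤ f.totalDegree
    rw [← hg] at ha
    have h2 := le_totalDegree ha
    rw [Finsupp.sum_fintype _ _ (fun _ => rfl)] at h2
    have h3 : a i ≤ ∑ j, a j :=
      Finset.single_le_sum (f := fun j => a j) (fun j _ => Nat.zero_le _) (Finset.mem_univ i)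
    exact (h3.trans h2).trans (deg_sub g f)
  have hne : F.Nonempty := by
    obtain ⟨g, B, hg, hB1, hB2⟩ := h
    refine ⟨(sub g f).support, ?_⟩
    rw [hF]
    exact ⟨g, hg, rfl, B, hB1, hB2⟩
  obtain ⟨s, hs, hmin⟩ := Set.exists_min_image F (fun s => ∑ i, Bf s i ^ 2) hfin hne
  have hs' := hs
  rw [hF] at hs'
  obtain ⟨g, hg, hgs, hB⟩ := hs'
  obtain ⟨h4, h5⟩ := hBf s hB
  refine ⟨g, Bf s, ⟨hg, h4.1, ?_⟩, ?_⟩
  · intro a ha
    rw [hgs] at ha
    exact h4.2 a ha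
  · intro g' B' hg'
    obtain ⟨h6, h7, h8⟩ := hg'
    have h9 : Cd (sub g' f).support B' := ⟨h7, h8⟩
    have h10 : (sub g' f).support ∈ F := by
      rw [hF]
      exact ⟨g', h6, rfl, B', h9⟩
    exact (hmin _ h10).trans ((hBf _ ⟨B', h9⟩).2 B' h9)

end Pool.Agent.H9.IZ
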