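import Pool.Agent.H9.IZ.Defs

set_option autoImplicit false

open MvPolynomial Matrix

namespace Pool.Agent.H9.IZ

private theorem sub_pm {n : ℕ} {ι : Type} (w : Equiv.Perm (Fin n)) (f : MvPolynomial (Fin n × ι) ℝ) :
    sub (pm w) f = rename (Equiv.prodCongr w (Equiv.refl ι)) f := by
  unfold sub
  rw [← MvPolynomial.aeval_X_left_apply (rename (Equiv.prodCongr w (Equiv.refl ι)) f), MvPolynomial.aeval_rename]
  congr 1
  refine congrArg _ (funext fun q => ?_)
  have h : ∀ k : Fin n, (C (pm w q.1 k) * X (k, q.2) : MvPolynomial (Fin n × ι) ℝ) =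
      if w q.1 = k then X (k, q.2) else 0 := by
    intro k
    unfold pm
    rw [Matrix.of_apply]
    split_ifs with hk
    · rw [map_one, one_mul]
    · rw [map_zero, zero_mul]
  rw [Finset.sum_congr rfl fun k _ => h k, Finset.sum_ite_eq Finset.univ (w q.1), if_pos (Finset.mem_univ _)]
  rfl

/-- TASK Wb1. `sub (pm w) f` is `f` with the variable `(i, j)` renamed to `(w i, j)`. -/
theorem Wt_perm {n : ℕ} {ι : Type} [Fintype ι] (B : Fin n → ℝ) (w : Equiv.Perm (Fin n))
    (f : MvPolynomial (Fin n × ι) ℝ) : Wt B (sub (pm w) f) ↔ Wt (fun i => B (w i)) f := by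
  classical
  have hinj : Function.Injective (Equiv.prodCongr w (Equiv.refl ι)) := (Equiv.prodCongr w (Equiv.refl ι)).injective
  have hsum : ∀ a : (Fin n × ι) →₀ ℕ, ∑ q : Fin n × ι, B q.1 * ((Finsupp.mapDomain (Equiv.prodCongr w (Equiv.refl ι)) a q : ℕ) : ℝ)
      = ∑ q : Fin n × ι, B (w q.1) * ((a q : ℕ) : ℝ) := by
    intro a
    rw [← Equiv.sum_comp (Equiv.prodCongr w (Equiv.refl ι))]
    refine Finset.sum_congr rfl fun q _ => ?_
    rw [Finsupp.mapDomain_apply hinj]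
    rfl
  unfold Wt
  rw [sub_pm, MvPolynomial.support_rename_of_injective hinj]
  constructor
  · intro h a ha
    have := h _ (Finset.mem_image_of_mem _ ha)
    rwa [hsum] at this
  · intro h b hb
    obtain ⟨a, ha, rfl⟩ := Finset.mem_image.1 hb
    rw [hsum]
    exact h a ha

private theorem pm_inv {n : ℕ} (w : Equiv.Perm (Fin n)) : pm w⁻¹ * pm w = 1 := by
  ext i j
  rw [Matrix.mul_apply]
  have h : ∀ k : Fin n, pm w⁻¹ i k * pm w k j = if w⁻¹ i = k then (if w k = j then (1 : ℝ) else 0) else 0 := by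
    intro k
    unfold pm
    rw [Matrix.of_apply, Matrix.of_apply]
    split_ifs <;> simp
  have h2 : w (w⁻¹ i) = i := w.apply_symm_apply i
  rw [Finset.sum_congr rfl fun k _ => h k, Finset.sum_ite_eq Finset.univ (w⁻¹ i), if_pos (Finset.mem_univ _),
    h2, Matrix.one_apply]

/-- TASK Wb2. Sort the weights (`Tuple.sort B`, `Tuple.monotone_sort`). -/
theorem Dst_sort {n : ℕ} {ι : Type} [Fintype ι] (f : MvPolynomial (Fin n × ι) ℝ)
    (g : Matrix (Fin n) (Fin n) ℝ) (B : Fin n → ℝ) (h : Dst f g B) :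
    ∃ (g' : Matrix (Fin n) (Fin n) ℝ) (B' : Fin n → ℝ), Dst f g' B' ∧ Monotone B' ∧
      ∑ i, B' i ^ 2 = ∑ i, B i ^ 2 := by
  obtain ⟨h1, h2, h3⟩ := h
  have hdet : IsUnit (pm (Tuple.sort B)⁻¹).det := by
    have h4 := congrArg Matrix.det (pm_inv (Tuple.sort B))
    rw [Matrix.det_mul, Matrix.det_one] at h4
    exact IsUnit.of_mul_eq_one _ h4
  refine ⟨g * pm (Tuple.sort B)⁻¹, fun i => B (Tuple.sort B i), ⟨?_, ?_, ?_⟩, Tuple.monotone_sort B, ?_⟩
  · rw [Matrix.det_mul]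
    exact h1.mul hdet
  · rw [Equiv.sum_comp (Tuple.sort B) B, h2]
  · rw [← Wt_perm, sub_mul, Matrix.mul_assoc, pm_inv, Matrix.mul_one]
    exact h3
  · exact Equiv.sum_comp (Tuple.sort B) (fun i => B i ^ 2)

end Pool.Agent.H9.IZ
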