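import Pool.Agent.H9.IZ.Wa
import Pool.Agent.H9.IZ.Wb
import Pool.Agent.H9.IZ.Br
import Pool.Agent.H9.IZ.Mn

/-!
# Kempf's argument

A destabilized polynomial has an optimal destabilizing pair; its filtration is unique, so it is
invariant under all matrices for which the polynomial is semi-invariant.
-/

set_option autoImplicit false

open MvPolynomial Matrix

namespace Pool.Agent.H9.IZ

private theorem sub_ne {n : ℕ} {ι : Type} [Fintype ι] (f : MvPolynomial (Fin n × ι) ℝ) (hf : f ≠ 0)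
    (g : Matrix (Fin n) (Fin n) ℝ) (hg : IsUnit g.det) : sub g f ≠ 0 := by
  intro h
  apply hf
  have h1 : sub g⁻¹ (sub g f) = f := by
    rw [sub_mul, Matrix.mul_nonsing_inv _ hg, sub_one]
  rw [← h1, h]
  unfold sub
  exact map_zero _

private theorem Wt_C {n : ℕ} {ι : Type} [Fintype ι] (B : Fin n → ℝ) (c : ℝ)
    (f : MvPolynomial (Fin n × ι) ℝ) (h : Wt B f) : Wt B (C c * f) := by
  intro a ha
  apply h a
  rw [mem_support_iff, coeff_C_mul] at ha
  rw [mem_support_iff]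
  exact right_ne_zero_of_mul ha

private theorem Up_inv {n : ℕ} (c : Matrix (Fin n) (Fin n) ℝ) (hc : IsUnit c.det) (h : Up c) :
    Up c⁻¹ := by
  have : Invertible c := Matrix.invertibleOfIsUnitDet _ hc
  have h1 : c.BlockTriangular (id : Fin n → Fin n) := fun i j hij => h i j hij
  have h2 := Matrix.blockTriangular_inv_of_blockTriangular h1
  exact fun i j hij => h2 hij

private theorem Up_mono {n : ℕ} {b : Matrix (Fin n) (Fin n) ℝ} (h : Up b) {B : Fin n → ℝ}
    (hB : Monotone B) (i k : Fin n) (hik : b i k ≠ 0) : B i ≤ B k := by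
  rcases lt_or_ge k i with h1 | h1
  · exact absurd (h i k h1) hik
  · exact hB h1

/-- the key: the filtration of an optimal pair is invariant -/
private theorem key {n : ℕ} {ι : Type} [Fintype ι] (f : MvPolynomial (Fin n × ι) ℝ)
    (g : Matrix (Fin n) (Fin n) ℝ) (B : Fin n → ℝ) (hd : Dst f g B) (hB : Monotone B)
    (hmin : ∀ (g' : Matrix (Fin n) (Fin n) ℝ) (B' : Fin n → ℝ), Dst f g' B' →
        ∑ i, B i ^ 2 ≤ ∑ i, B' i ^ 2)
    (γ : Matrix (Fin n) (Fin n) ℝ) (hγ : IsUnit γ.det) (c0 : ℝ) (hs : sub γ f = C c0 * f)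
    (i k : Fin n) (hik : (g⁻¹ * γ * g) i k ≠ 0) : B i ≤ B k := by
  obtain ⟨hg, hB0, hW⟩ := hd
  have hM : IsUnit (g⁻¹ * γ * g).det := by
    rw [Matrix.det_mul, Matrix.det_mul]
    exact ((Matrix.isUnit_nonsing_inv_det g hg).mul hγ).mul hg
  obtain ⟨b, c, w, hb, hc, hbU, hcU, hMe⟩ := bruhat _ hM
  have h1 : Wt B (sub (g * b) f) := by
    rw [← sub_mul]
    exact Wt_sub B b (fun i k h => Up_mono hbU hB i k h) _ hW
  have h2 : Wt B (sub (γ * g * c⁻¹) f) := by
    rw [← sub_mul, ← sub_mul, hs, sub_smul, sub_smul]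
    refine Wt_C B c0 _ ?_
    exact Wt_sub B c⁻¹ (fun i k h => Up_mono (Up_inv c hc hcU) hB i k h) _ hW
  have h3 : γ * g * c⁻¹ = g * b * pm w := by
    have h4 : γ * g = g * (g⁻¹ * γ * g) := by
      rw [← Matrix.mul_assoc, ← Matrix.mul_assoc, Matrix.mul_nonsing_inv _ hg, Matrix.one_mul]
    rw [h4, hMe, Matrix.mul_assoc, Matrix.mul_assoc, Matrix.mul_nonsing_inv _ hc, Matrix.mul_one,
      Matrix.mul_assoc]
  rw [h3, ← sub_mul, Wt_perm] at h2
  have hsum : ∑ i, B (w i) = ∑ i, B i := Equiv.sum_comp w B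
  have hsq : ∑ i, B (w i) ^ 2 = ∑ i, B i ^ 2 := Equiv.sum_comp w fun i => B i ^ 2
  have h5 : Dst f (g * b) fun i => (B i + B (w i)) / 2 := by
    refine ⟨?_, ?_, ?_⟩
    · rw [Matrix.det_mul]
      exact hg.mul hb
    · rw [← Finset.sum_div, Finset.sum_add_distrib, hsum, hB0]
      norm_num
    · intro a ha
      have e1 := h1 a ha
      have e2 := h2 a ha
      have e3 : ∑ q : Fin n × ι, (B q.1 + B (w q.1)) / 2 * (a q : ℝ) =
          (∑ q : Fin n × ι, B q.1 * (a q : ℝ) + ∑ q : Fin n × ι, B (w q.1) * (a q : ℝ)) / 2 := by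
        rw [← Finset.sum_add_distrib, Finset.sum_div]
        exact Finset.sum_congr rfl fun q _ => by ring
      show 1 ≤ ∑ q : Fin n × ι, (B q.1 + B (w q.1)) / 2 * (a q : ℝ)
      rw [e3]
      linarith
  have h6 := hmin _ _ h5
  have h7 : ∑ i, (B i - B (w i)) ^ 2 = 0 := by
    have e1 : ∑ i, (B i - B (w i)) ^ 2 =
        2 * ∑ i, B i ^ 2 + 2 * ∑ i, B (w i) ^ 2 - 4 * ∑ i, ((B i + B (w i)) / 2) ^ 2 := by
      rw [Finset.mul_sum, Finset.mul_sum, Finset.mul_sum, ← Finset.sum_add_distrib,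
        ← Finset.sum_sub_distrib]
      exact Finset.sum_congr rfl fun i _ => by ring
    have e2 : 0 ≤ ∑ i, (B i - B (w i)) ^ 2 := Finset.sum_nonneg fun i _ => sq_nonneg _
    have e3 : ∑ i, B i ^ 2 ≤ ∑ i, ((B i + B (w i)) / 2) ^ 2 := h6
    rw [hsq] at e1
    linarith
  have h8 : ∀ i, B i = B (w i) := by
    intro i
    have e1 := (Finset.sum_eq_zero_iff_of_nonneg fun i _ => sq_nonneg (B i - B (w i))).1 h7 i
      (Finset.mem_univ i)
    have e2 : B i - B (w i) = 0 := pow_eq_zero_iff (two_ne_zero) |>.1 e1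
    linarith
  rw [hMe, Matrix.mul_apply] at hik
  obtain ⟨j, _, hj⟩ := Finset.exists_ne_zero_of_sum_ne_zero hik
  have hj1 := left_ne_zero_of_mul hj
  have hj2 := right_ne_zero_of_mul hj
  rw [Matrix.mul_apply] at hj1
  obtain ⟨l, _, hl⟩ := Finset.exists_ne_zero_of_sum_ne_zero hj1
  have hl1 := left_ne_zero_of_mul hl
  have hl2 := right_ne_zero_of_mul hl
  have hwl : w l = j := by
    by_contra h9
    apply hl2
    unfold pm
    rw [Matrix.of_apply, if_neg h9]
  calc B i ≤ B l := Up_mono hbU hB i l hl1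
    _ = B (w l) := h8 l
    _ = B j := by rw [hwl]
    _ ≤ B k := Up_mono hcU hB j k hj2

theorem kempf {n : ℕ} {ι : Type} [Fintype ι] (f : MvPolynomial (Fin n × ι) ℝ) (hf : f ≠ 0)
    (h : ∃ (g : Matrix (Fin n) (Fin n) ℝ) (B : Fin n → ℝ), Dst f g B) :
    ∃ U : Submodule ℝ (Fin n → ℝ), U ≠ ⊥ ∧ U ≠ ⊤ ∧
      ∀ γ : Matrix (Fin n) (Fin n) ℝ, IsUnit γ.det → (∃ c : ℝ, sub γ f = C c * f) →
        ∀ u ∈ U, γ *ᵥ u ∈ U := by
  obtain ⟨g0, B0, hd0, hmin0⟩ := exists_min f h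
  obtain ⟨g, B, hd, hB, hBB⟩ := Dst_sort f g0 B0 hd0
  have hmin : ∀ (g' : Matrix (Fin n) (Fin n) ℝ) (B' : Fin n → ℝ), Dst f g' B' →
      ∑ i, B i ^ 2 ≤ ∑ i, B' i ^ 2 := by
    intro g' B' h'
    rw [hBB]
    exact hmin0 g' B' h'
  have hg := hd.1
  have hex : ∃ i, B i ≠ 0 := by
    by_contra hno
    push Not at hno
    have h1 := sub_ne f hf g hg
    obtain ⟨a, ha⟩ := MvPolynomial.support_nonempty.2 h1
    have h2 := hd.2.2 a ha
    rw [Finset.sum_eq_zero (fun q _ => by rw [hno, zero_mul])] at h2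
    linarith
  obtain ⟨i0, hi0⟩ := hex
  have hn : 0 < n := i0.pos
  set o : Fin n := ⟨0, hn⟩ with ho
  have hoB : ∀ k, B o ≤ B k := fun k => hB (Fin.mk_le_of_le_val (Nat.zero_le _))
  have hk : ∃ k, B o < B k := by
    by_contra hno
    push Not at hno
    have h1 : ∀ k, B k = B o := fun k => le_antisymm (hno k) (hoB k)
    have h2 := hd.2.1
    rw [Finset.sum_congr rfl fun k _ => h1 k, Finset.sum_const, Finset.card_univ,
      Fintype.card_fin, nsmul_eq_mul] at h2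
    rcases mul_eq_zero.1 h2 with h3 | h3
    · have : (n : ℝ) ≠ 0 := by exact_mod_cast hn.ne'
      exact this h3
    · apply hi0
      rw [h1 i0, h3]
  obtain ⟨k0, hk0⟩ := hk
  let U : Submodule ℝ (Fin n → ℝ) :=
    { carrier := {u | ∀ k, B o < B k → (g⁻¹ *ᵥ u) k = 0}
      zero_mem' := by
        intro k _
        rw [Matrix.mulVec_zero]
        rfl
      add_mem' := by
        intro u v hu hv k hk
        rw [Matrix.mulVec_add, Pi.add_apply, hu k hk, hv k hk, add_zero]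
      smul_mem' := by
        intro c u hu k hk
        rw [Matrix.mulVec_smul, Pi.smul_apply, hu k hk, smul_zero] }
  have hgg : ∀ x : Fin n → ℝ, g⁻¹ *ᵥ (g *ᵥ x) = x := by
    intro x
    rw [Matrix.mulVec_mulVec, Matrix.nonsing_inv_mul _ hg, Matrix.one_mulVec]
  refine ⟨U, ?_, ?_, ?_⟩
  · intro hU
    have h1 : g *ᵥ (Pi.single o 1 : Fin n → ℝ) ∈ U := by
      intro k hk
      rw [hgg]
      have : k ≠ o := by
        rintro rfl
        exact lt_irrefl _ hk
      rw [Pi.single_eq_of_ne this]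
    rw [hU, Submodule.mem_bot] at h1
    have h2 := hgg (Pi.single o 1)
    rw [h1, Matrix.mulVec_zero] at h2
    have h3 := congrFun h2 o
    rw [Pi.single_eq_same] at h3
    exact zero_ne_one h3
  · intro hU
    have h1 : g *ᵥ (Pi.single k0 1 : Fin n → ℝ) ∈ U := by
      rw [hU]
      exact Submodule.mem_top
    have h2 := h1 k0 hk0
    rw [hgg, Pi.single_eq_same] at h2
    exact one_ne_zero h2
  · rintro γ hγ ⟨c0, hs⟩ u hu k hk
    have h1 : g⁻¹ *ᵥ (γ *ᵥ u) = (g⁻¹ * γ * g) *ᵥ (g⁻¹ *ᵥ u) := by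
      rw [Matrix.mulVec_mulVec, Matrix.mulVec_mulVec, Matrix.mul_assoc, Matrix.mul_assoc,
        Matrix.mul_nonsing_inv _ hg, Matrix.mul_one]
    rw [h1]
    show ∑ l, (g⁻¹ * γ * g) k l * (g⁻¹ *ᵥ u) l = 0
    refine Finset.sum_eq_zero fun l _ => ?_
    by_cases h2 : (g⁻¹ * γ * g) k l = 0
    · rw [h2, zero_mul]
    · have h3 := key f g B hd hB hmin γ hγ c0 hs k l h2
      rw [hu l (lt_of_lt_of_le hk h3), mul_zero]

end Pool.Agent.H9.IZ
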