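import Pool.Agent.H9.IZ.Defs

set_option autoImplicit false

open Matrix

namespace Pool.Agent.H9.IZ

/-- TASK Sv1. Singular values of a matrix of determinant `1`. `Aᵀ * A` is positive definite:
`Aᵀ * A = V diag(μ) Vᵀ` (Matrix.IsHermitian.spectral_theorem), `D = log μ / 2`, `l = Vᵀ`,
`k = A V diag(exp (-D))`. -/
theorem svd {n : ℕ} (A : Matrix (Fin n) (Fin n) ℝ) (hA : A.det = 1) :
    ∃ (k l : Matrix (Fin n) (Fin n) ℝ) (D : Fin n → ℝ), kᵀ * k = 1 ∧ lᵀ * l = 1 ∧
      ∑ i, D i = 0 ∧ A = k * Matrix.diagonal (fun i => Real.exp (D i)) * l := by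
  classical
  have hH : (Aᴴ * A).IsHermitian := isHermitian_conjTranspose_mul_self A
  obtain ⟨μ, hμ⟩ : ∃ μ : Fin n → ℝ, μ = hH.eigenvalues := ⟨_, rfl⟩
  have hdet : ∏ i, μ i = 1 := by
    have h1 := hH.det_eq_prod_eigenvalues
    rw [det_mul, det_conjTranspose, hA] at h1
    rw [hμ]
    simpa using h1.symm
  have hnn : ∀ i, 0 ≤ μ i := by
    intro i
    rw [hμ]
    exact (posSemidef_conjTranspose_mul_self A).eigenvalues_nonneg i
  have hpos : ∀ i, 0 < μ i := by
    intro i
    refine lt_of_le_of_ne (hnn i) fun h => ?_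
    have h1 : ∏ i, μ i = 0 := Finset.prod_eq_zero (Finset.mem_univ i) h.symm
    rw [hdet] at h1
    exact one_ne_zero h1
  obtain ⟨V, hV⟩ : ∃ V : Matrix (Fin n) (Fin n) ℝ, V = hH.eigenvectorUnitary := ⟨_, rfl⟩
  have hst : star V = Vᵀ := by
    rw [star_eq_conjTranspose, conjTranspose_eq_transpose_of_trivial]
  have hVV : Vᵀ * V = 1 := by
    rw [← hst, hV]
    exact Unitary.coe_star_mul_self hH.eigenvectorUnitary
  have hVV' : V * Vᵀ = 1 := mul_eq_one_comm.1 hVV
  have hdiag : Vᵀ * (Aᵀ * A) * V = Matrix.diagonal μ := by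
    have h1 := hH.conjStarAlgAut_star_eigenvectorUnitary
    rw [Unitary.conjStarAlgAut_star_apply] at h1
    rw [← hst, hV, hμ, ← conjTranspose_eq_transpose_of_trivial A]
    exact h1
  obtain ⟨D, hD⟩ : ∃ D : Fin n → ℝ, D = fun i => Real.log (μ i) / 2 := ⟨_, rfl⟩
  have hee : Matrix.diagonal (fun i => Real.exp (-D i)) *
      Matrix.diagonal (fun i => Real.exp (D i)) = (1 : Matrix (Fin n) (Fin n) ℝ) := by
    rw [Matrix.diagonal_mul_diagonal, ← Matrix.diagonal_one]
    congr 1
    funext i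
    rw [← Real.exp_add, neg_add_cancel, Real.exp_zero]
  refine ⟨A * V * Matrix.diagonal (fun i => Real.exp (-D i)), Vᵀ, D, ?_, ?_, ?_, ?_⟩
  · rw [transpose_mul, transpose_mul, Matrix.diagonal_transpose]
    have e : Matrix.diagonal (fun i => Real.exp (-D i)) * (Vᵀ * Aᵀ) *
        (A * V * Matrix.diagonal (fun i => Real.exp (-D i))) =
        Matrix.diagonal (fun i => Real.exp (-D i)) * (Vᵀ * (Aᵀ * A) * V) *
          Matrix.diagonal (fun i => Real.exp (-D i)) := by
      simp only [Matrix.mul_assoc]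
    rw [e, hdiag, Matrix.diagonal_mul_diagonal, Matrix.diagonal_mul_diagonal,
      ← Matrix.diagonal_one]
    congr 1
    funext i
    have h1 : μ i = Real.exp (D i + D i) := by
      rw [hD]
      have h2 : Real.log (μ i) / 2 + Real.log (μ i) / 2 = Real.log (μ i) := by ring
      change μ i = Real.exp (Real.log (μ i) / 2 + Real.log (μ i) / 2)
      rw [h2, Real.exp_log (hpos i)]
    rw [h1, ← Real.exp_add, ← Real.exp_add]
    have h3 : -D i + (D i + D i) + -D i = 0 := by ring
    rw [h3, Real.exp_zero]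
  · rw [transpose_transpose]
    exact hVV'
  · have h1 : ∑ i, Real.log (μ i) = 0 := by
      rw [← Real.log_prod fun i _ => (hpos i).ne', hdet, Real.log_one]
    rw [hD]
    change ∑ i, Real.log (μ i) / 2 = 0
    rw [← Finset.sum_div, h1, zero_div]
  · have e : A * V * Matrix.diagonal (fun i => Real.exp (-D i)) *
        Matrix.diagonal (fun i => Real.exp (D i)) * Vᵀ =
        A * (V * (Matrix.diagonal (fun i => Real.exp (-D i)) *
          Matrix.diagonal (fun i => Real.exp (D i))) * Vᵀ) := by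
      simp only [Matrix.mul_assoc]
    rw [e, hee, Matrix.mul_one, hVV', Matrix.mul_one]

private theorem sv_entry {n : ℕ} (k : Matrix (Fin n) (Fin n) ℝ) (hk : kᵀ * k = 1)
    (a i : Fin n) : |k a i| ≤ 1 := by
  have h1 : ∑ a, k a i * k a i = 1 := by
    have h2 := congrFun (congrFun hk i) i
    rw [Matrix.mul_apply, Matrix.one_apply_eq] at h2
    exact h2
  have h3 : k a i * k a i ≤ ∑ a, k a i * k a i :=
    Finset.single_le_sum (f := fun a => k a i * k a i) (fun a _ => mul_self_nonneg _)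
      (Finset.mem_univ a)
  rw [h1] at h3
  rw [← sq_le_one_iff_abs_le_one, sq]
  exact h3

private theorem sv_mul {n : ℕ} (A B : Matrix (Fin n) (Fin n) ℝ) :
    ∑ i, ∑ j, |(A * B) i j| ≤ (∑ i, ∑ j, |A i j|) * ∑ i, ∑ j, |B i j| := by
  have h1 : ∀ i j, |(A * B) i j| ≤ ∑ k, |A i k| * |B k j| := by
    intro i j
    rw [Matrix.mul_apply]
    refine (Finset.abs_sum_le_sum_abs _ _).trans (Finset.sum_le_sum fun k _ => ?_)
    rw [abs_mul]
  calc ∑ i, ∑ j, |(A * B) i j| ≤ ∑ i, ∑ j, ∑ k, |A i k| * |B k j| :=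
        Finset.sum_le_sum fun i _ => Finset.sum_le_sum fun j _ => h1 i j
    _ = ∑ i, ∑ k, |A i k| * ∑ j, |B k j| := by
        refine Finset.sum_congr rfl fun i _ => ?_
        rw [Finset.sum_comm]
        exact Finset.sum_congr rfl fun k _ => (Finset.mul_sum _ _ _).symm
    _ ≤ ∑ i, ∑ k, |A i k| * ∑ k, ∑ j, |B k j| := by
        refine Finset.sum_le_sum fun i _ => Finset.sum_le_sum fun k _ =>
          mul_le_mul_of_nonneg_left ?_ (abs_nonneg _)
        exact Finset.single_le_sum (f := fun k => ∑ j, |B k j|)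
          (fun k _ => Finset.sum_nonneg fun j _ => abs_nonneg _) (Finset.mem_univ k)
    _ = (∑ i, ∑ j, |A i j|) * ∑ i, ∑ j, |B i j| := by
        rw [Finset.sum_mul]
        refine Finset.sum_congr rfl fun i _ => ?_
        rw [Finset.sum_mul]

private theorem sv_pow {n : ℕ} (A : Matrix (Fin n) (Fin n) ℝ) (t : ℕ) :
    ∑ i, ∑ j, |(A ^ (t + 1)) i j| ≤ (∑ i, ∑ j, |A i j|) ^ (t + 1) := by
  have h0 : 0 ≤ ∑ i, ∑ j, |A i j| :=
    Finset.sum_nonneg fun i _ => Finset.sum_nonneg fun j _ => abs_nonneg _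
  induction t with
  | zero => simp
  | succ t ih =>
    rw [pow_succ A (t + 1), pow_succ (∑ i, ∑ j, |A i j|) (t + 1)]
    exact (sv_mul _ _).trans (mul_le_mul_of_nonneg_right ih h0)

/-- TASK Sv2. The singular values of `A ^ t` grow at most exponentially. Upper bound: the entry `(i, i)`
of `diag(exp D) = kᵀ (A ^ t) lᵀ` is at most the sum of the absolute values of the entries of `A ^ t`
(entries of `k`, `l` are at most `1`), which is at most `(∑ i, ∑ j, |A i j|) ^ t` (for `t ≥ 1`);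
lower bound from `∑ D i = 0`. -/
theorem svd_bound {n : ℕ} (A : Matrix (Fin n) (Fin n) ℝ) (hA : A.det = 1) :
    ∃ R : ℝ, 0 ≤ R ∧ ∀ (t : ℕ) (k l : Matrix (Fin n) (Fin n) ℝ) (D : Fin n → ℝ), 0 < t →
      kᵀ * k = 1 → lᵀ * l = 1 → ∑ i, D i = 0 →
      A ^ t = k * Matrix.diagonal (fun i => Real.exp (D i)) * l → ∀ i, |D i| ≤ R * t := by
  classical
  have _ := hA
  obtain ⟨S, hS⟩ : ∃ S : ℝ, S = max (∑ i, ∑ j, |A i j|) 1 := ⟨_, rfl⟩
  have hS1 : 1 ≤ S := by rw [hS]; exact le_max_right _ _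
  have hL : 0 ≤ Real.log S := Real.log_nonneg hS1
  have h0 : 0 ≤ ∑ i, ∑ j, |A i j| :=
    Finset.sum_nonneg fun i _ => Finset.sum_nonneg fun j _ => abs_nonneg _
  refine ⟨(n + 1) * Real.log S, by positivity, ?_⟩
  intro t k l D ht hk hl hD hAt i
  have hll : l * lᵀ = 1 := mul_eq_one_comm.1 hl
  have hd : kᵀ * A ^ t * lᵀ = Matrix.diagonal fun i => Real.exp (D i) := by
    rw [hAt]
    have e : kᵀ * (k * Matrix.diagonal (fun i => Real.exp (D i)) * l) * lᵀ =
        (kᵀ * k) * Matrix.diagonal (fun i => Real.exp (D i)) * (l * lᵀ) := by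
      simp only [Matrix.mul_assoc]
    rw [e, hk, hll, Matrix.one_mul, Matrix.mul_one]
  have hup : ∀ i, D i ≤ t * Real.log S := by
    intro i
    have h1 : Real.exp (D i) = ∑ b, (∑ a, k a i * (A ^ t) a b) * l i b := by
      have h2 := congrFun (congrFun hd i) i
      rw [Matrix.diagonal_apply_eq, Matrix.mul_apply] at h2
      rw [← h2]
      refine Finset.sum_congr rfl fun b _ => ?_
      rw [Matrix.mul_apply]
      rfl
    have hl1 : ∀ b, |l i b| ≤ 1 := fun b => by
      have h2 := sv_entry lᵀ (by rw [transpose_transpose]; exact hll) b i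
      exact h2
    have h3 : Real.exp (D i) ≤ ∑ a, ∑ b, |(A ^ t) a b| := by
      rw [h1, Finset.sum_comm]
      refine Finset.sum_le_sum fun b _ => ?_
      refine (le_abs_self _).trans ?_
      rw [abs_mul]
      have h4 : |∑ a, k a i * (A ^ t) a b| ≤ ∑ a, |(A ^ t) a b| := by
        refine (Finset.abs_sum_le_sum_abs _ _).trans (Finset.sum_le_sum fun a _ => ?_)
        rw [abs_mul]
        have h5 := mul_le_mul_of_nonneg_right (sv_entry k hk a i) (abs_nonneg ((A ^ t) a b))
        rwa [one_mul] at h5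
      have h6 := mul_le_mul h4 (hl1 b) (abs_nonneg _)
        (Finset.sum_nonneg fun a _ => abs_nonneg _)
      rwa [mul_one] at h6
    obtain ⟨u, rfl⟩ : ∃ u, t = u + 1 := ⟨t - 1, by omega⟩
    have h7 := sv_pow A u
    have h8 : (∑ i, ∑ j, |A i j|) ^ (u + 1) ≤ S ^ (u + 1) :=
      pow_le_pow_left₀ h0 (by rw [hS]; exact le_max_left _ _) _
    have h9 : Real.exp (D i) ≤ S ^ (u + 1) := h3.trans (h7.trans h8)
    have h10 := Real.log_le_log (Real.exp_pos _) h9
    rwa [Real.log_exp, Real.log_pow] at h10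
  have hlow : -(n * (t * Real.log S)) ≤ D i := by
    have h1 : D i = -∑ j ∈ Finset.univ.erase i, D j := by
      have h2 := Finset.add_sum_erase Finset.univ D (Finset.mem_univ i)
      rw [hD] at h2
      linarith
    have h3 : ∑ j ∈ Finset.univ.erase i, D j ≤ ∑ _j ∈ Finset.univ.erase i, (t * Real.log S) :=
      Finset.sum_le_sum fun j _ => hup j
    have h4 : ∑ _j ∈ Finset.univ.erase i, ((t : ℝ) * Real.log S) ≤ n * (t * Real.log S) := by
      rw [Finset.sum_const, nsmul_eq_mul]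
      refine mul_le_mul_of_nonneg_right ?_ (by positivity)
      have h5 : (Finset.univ.erase i).card ≤ n := by
        calc (Finset.univ.erase i).card ≤ (Finset.univ : Finset (Fin n)).card :=
              Finset.card_le_card (Finset.erase_subset _ _)
          _ = n := by rw [Finset.card_univ, Fintype.card_fin]
      exact_mod_cast h5
    rw [h1]
    linarith
  have ht0 : (0 : ℝ) ≤ t * Real.log S := by positivity
  have hn0 : (0 : ℝ) ≤ n := Nat.cast_nonneg _
  have hi := hup i
  rw [abs_le]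
  constructor
  · nlinarith
  · nlinarith [mul_nonneg hn0 ht0]

end Pool.Agent.H9.IZ
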