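import Pool.Agent.H9.IZ.Defs

set_option autoImplicit false

open Matrix

namespace Pool.Agent.H9.IZ

private theorem sv2_mul {n : ℕ} (X Y : Matrix (Fin n) (Fin n) ℝ) :
    ∑ i, ∑ j, |(X * Y) i j| ≤ (∑ i, ∑ j, |X i j|) * (∑ i, ∑ j, |Y i j|) := by
  have h1 : ∀ i j : Fin n, |(X * Y) i j| ≤ ∑ b, |X i b| * |Y b j| := by
    intro i j
    rw [Matrix.mul_apply]
    refine (Finset.abs_sum_le_sum_abs _ _).trans (le_of_eq ?_)
    exact Finset.sum_congr rfl fun b _ => abs_mul _ _
  calc ∑ i, ∑ j, |(X * Y) i j| ≤ ∑ i, ∑ j, ∑ b, |X i b| * |Y b j| :=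
        Finset.sum_le_sum fun i _ => Finset.sum_le_sum fun j _ => h1 i j
    _ = ∑ i, ∑ b, |X i b| * ∑ j, |Y b j| := by
        refine Finset.sum_congr rfl fun i _ => ?_
        rw [Finset.sum_comm]
        exact Finset.sum_congr rfl fun b _ => (Finset.mul_sum _ _ _).symm
    _ ≤ ∑ i, ∑ b, |X i b| * (∑ i, ∑ j, |Y i j|) := by
        refine Finset.sum_le_sum fun i _ => Finset.sum_le_sum fun b _ => ?_
        refine mul_le_mul_of_nonneg_left ?_ (abs_nonneg _)
        exact Finset.single_le_sum (f := fun b => ∑ j, |Y b j|)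
          (fun c _ => Finset.sum_nonneg fun j _ => abs_nonneg _) (Finset.mem_univ b)
    _ = (∑ i, ∑ j, |X i j|) * (∑ i, ∑ j, |Y i j|) := by
        rw [Finset.sum_mul]
        exact Finset.sum_congr rfl fun i _ => (Finset.sum_mul _ _ _).symm

private theorem sv2_pow {n : ℕ} (A : Matrix (Fin n) (Fin n) ℝ) (t : ℕ) :
    ∑ i, ∑ j, |(A ^ (t + 1)) i j| ≤ (∑ i, ∑ j, |A i j|) ^ (t + 1) := by
  induction t with
  | zero => simp
  | succ t ih =>
    rw [pow_succ A (t + 1), pow_succ _ (t + 1)]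
    refine (sv2_mul _ _).trans (mul_le_mul_of_nonneg_right ih ?_)
    exact Finset.sum_nonneg fun i _ => Finset.sum_nonneg fun j _ => abs_nonneg _

private theorem sv2_orth {n : ℕ} (k : Matrix (Fin n) (Fin n) ℝ) (hk : kᵀ * k = 1) (a i : Fin n) :
    |k a i| ≤ 1 := by
  have h1 : ∑ b, k b i * k b i = 1 := by
    have h2 := congrFun (congrFun hk i) i
    rw [Matrix.mul_apply, Matrix.one_apply_eq] at h2
    exact h2
  have h3 : k a i * k a i ≤ ∑ b, k b i * k b i :=
    Finset.single_le_sum (f := fun b => k b i * k b i) (fun c _ => mul_self_nonneg _)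
      (Finset.mem_univ a)
  rw [h1] at h3
  exact abs_le_one_iff_mul_self_le_one.mpr h3

theorem svd_bound2 {n : ℕ} (A : Matrix (Fin n) (Fin n) ℝ) (hA : A.det = 1) :
    ∃ R : ℝ, 0 ≤ R ∧ ∀ (t : ℕ) (k l : Matrix (Fin n) (Fin n) ℝ) (D : Fin n → ℝ), 0 < t →
      kᵀ * k = 1 → lᵀ * l = 1 → ∑ i, D i = 0 →
      A ^ t = k * Matrix.diagonal (fun i => Real.exp (D i)) * l → ∀ i, |D i| ≤ R * t := by
  set S : ℝ := ∑ i, ∑ j, |A i j| with hS
  have hS0 : 0 ≤ S := Finset.sum_nonneg fun i _ => Finset.sum_nonneg fun j _ => abs_nonneg _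
  have hL0 : 0 ≤ Real.log (1 + S) := Real.log_nonneg (by linarith)
  refine ⟨n * Real.log (1 + S), mul_nonneg (Nat.cast_nonneg _) hL0, ?_⟩
  intro t k l D ht hk hl hD hA2
  have hl' : l * lᵀ = 1 := mul_eq_one_comm.mp hl
  have hdiag : kᵀ * A ^ t * lᵀ = Matrix.diagonal (fun i => Real.exp (D i)) := by
    rw [hA2]
    calc kᵀ * (k * Matrix.diagonal (fun i => Real.exp (D i)) * l) * lᵀ
        = (kᵀ * k) * Matrix.diagonal (fun i => Real.exp (D i)) * (l * lᵀ) := by
          simp only [Matrix.mul_assoc]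
      _ = _ := by rw [hk, hl', Matrix.one_mul, Matrix.mul_one]
  have hup : ∀ i, D i ≤ t * Real.log (1 + S) := by
    intro i
    have h1 : Real.exp (D i) = ∑ b, (∑ a, k a i * (A ^ t) a b) * l i b := by
      have h2 := congrFun (congrFun hdiag i) i
      rw [Matrix.diagonal_apply_eq, Matrix.mul_apply] at h2
      rw [← h2]
      refine Finset.sum_congr rfl fun b _ => ?_
      rw [Matrix.mul_apply]
      rfl
    have h3 : Real.exp (D i) ≤ ∑ b, ∑ a, |(A ^ t) a b| := by
      rw [h1]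
      refine Finset.sum_le_sum fun b _ => ?_
      rw [Finset.sum_mul]
      refine Finset.sum_le_sum fun a _ => ?_
      have e1 := sv2_orth k hk a i
      have e2 : |l i b| ≤ 1 := by
        have e3 := sv2_orth lᵀ (by rw [Matrix.transpose_transpose]; exact hl') b i
        exact e3
      calc k a i * (A ^ t) a b * l i b ≤ |k a i * (A ^ t) a b * l i b| := le_abs_self _
        _ = |k a i| * |(A ^ t) a b| * |l i b| := by rw [abs_mul, abs_mul]
        _ ≤ 1 * |(A ^ t) a b| * 1 := by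
            refine mul_le_mul (mul_le_mul_of_nonneg_right e1 (abs_nonneg _)) e2 (abs_nonneg _) ?_
            positivity
        _ = |(A ^ t) a b| := by ring
    have h4 : ∑ b, ∑ a, |(A ^ t) a b| ≤ S ^ t := by
      rw [Finset.sum_comm]
      obtain ⟨s, rfl⟩ : ∃ s, t = s + 1 := ⟨t - 1, by omega⟩
      exact sv2_pow A s
    have h5 : S ^ t ≤ (1 + S) ^ t := pow_le_pow_left₀ hS0 (by linarith) t
    have h6 : Real.exp (D i) ≤ (1 + S) ^ t := h3.trans (h4.trans h5)
    have h7 := Real.log_le_log (Real.exp_pos _) h6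
    rw [Real.log_exp, Real.log_pow] at h7
    exact h7
  intro i
  have ht0 : (0 : ℝ) ≤ t := Nat.cast_nonneg _
  have hn1 : (1 : ℝ) ≤ n := by
    have : 0 < n := i.pos
    exact_mod_cast this
  have hTL : 0 ≤ (t : ℝ) * Real.log (1 + S) := mul_nonneg ht0 hL0
  rw [abs_le]
  constructor
  · have h8 : D i + ∑ j ∈ Finset.univ.erase i, D j = 0 := by
      rw [Finset.add_sum_erase _ _ (Finset.mem_univ i)]
      exact hD
    have h9 : ∑ j ∈ Finset.univ.erase i, D j ≤ ∑ j ∈ Finset.univ.erase i, (t : ℝ) * Real.log (1 + S) :=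
      Finset.sum_le_sum fun j _ => hup j
    have h10 : ∑ j ∈ Finset.univ.erase i, (t : ℝ) * Real.log (1 + S) ≤ ∑ j : Fin n, (t : ℝ) * Real.log (1 + S) :=
      Finset.sum_le_sum_of_subset_of_nonneg (Finset.erase_subset _ _) fun _ _ _ => hTL
    rw [Finset.sum_const (s := (Finset.univ : Finset (Fin n))), Finset.card_univ, Fintype.card_fin, nsmul_eq_mul] at h10
    nlinarith
  · have h11 := hup i
    have h12 : 1 * ((t : ℝ) * Real.log (1 + S)) ≤ n * ((t : ℝ) * Real.log (1 + S)) :=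
      mul_le_mul_of_nonneg_right hn1 hTL
    nlinarith

end Pool.Agent.H9.IZ
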