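import Pool.Agent.H9.IZ.Defs

set_option autoImplicit false

open MvPolynomial Matrix

namespace Pool.Agent.H9.IZ

/-- weight of a monomial -/
private noncomputable def wt {n : ℕ} {ι : Type} [Fintype ι] (B : Fin n → ℝ) (a : Fin n × ι →₀ ℕ) : ℝ :=
  ∑ q : Fin n × ι, B q.1 * (a q : ℝ)

private theorem wt_add {n : ℕ} {ι : Type} [Fintype ι] (B : Fin n → ℝ) (a b : Fin n × ι →₀ ℕ) :
    wt B (a + b) = wt B a + wt B b := by
  unfold wt
  rw [← Finset.sum_add_distrib]
  refine Finset.sum_congr rfl fun q _ => ?_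
  rw [Finsupp.add_apply]
  push_cast
  ring

/-- all monomials have weight at least `c` -/
private def Wc {n : ℕ} {ι : Type} [Fintype ι] (B : Fin n → ℝ) (c : ℝ)
    (f : MvPolynomial (Fin n × ι) ℝ) : Prop :=
  ∀ a ∈ f.support, c ≤ wt B a

private theorem Wc_zero {n : ℕ} {ι : Type} [Fintype ι] (B : Fin n → ℝ) (c : ℝ) :
    Wc B c (0 : MvPolynomial (Fin n × ι) ℝ) := by
  intro a ha
  simp at ha

private theorem Wc_mono {n : ℕ} {ι : Type} [Fintype ι] {B : Fin n → ℝ} {c d : ℝ}
    {f : MvPolynomial (Fin n × ι) ℝ} (h : Wc B c f) (hd : d ≤ c) : Wc B d f :=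
  fun a ha => hd.trans (h a ha)

private theorem Wc_add {n : ℕ} {ι : Type} [Fintype ι] {B : Fin n → ℝ} {c : ℝ}
    {f g : MvPolynomial (Fin n × ι) ℝ} (hf : Wc B c f) (hg : Wc B c g) : Wc B c (f + g) := by
  classical
  intro a ha
  rcases Finset.mem_union.1 (support_add ha) with h | h
  · exact hf a h
  · exact hg a h

private theorem Wc_mul {n : ℕ} {ι : Type} [Fintype ι] {B : Fin n → ℝ} {c d : ℝ}
    {f g : MvPolynomial (Fin n × ι) ℝ} (hf : Wc B c f) (hg : Wc B d g) : Wc B (c + d) (f * g) := by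
  classical
  intro a ha
  obtain ⟨x, hx, y, hy, rfl⟩ := Finset.mem_add.1 (support_mul f g ha)
  rw [wt_add]
  exact add_le_add (hf x hx) (hg y hy)

private theorem Wc_C {n : ℕ} {ι : Type} [Fintype ι] (B : Fin n → ℝ) (r : ℝ) :
    Wc B 0 (C r : MvPolynomial (Fin n × ι) ℝ) := by
  classical
  intro a ha
  rw [mem_support_iff, coeff_C] at ha
  have h0 : a = 0 := by
    by_contra h
    exact ha (if_neg (fun h' => h h'.symm))
  rw [h0]
  unfold wt
  simp

private theorem Wc_X {n : ℕ} {ι : Type} [Fintype ι] (B : Fin n → ℝ) (q : Fin n × ι) :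
    Wc B (B q.1) (X q : MvPolynomial (Fin n × ι) ℝ) := by
  classical
  intro a ha
  rw [support_X, Finset.mem_singleton] at ha
  rw [ha]
  unfold wt
  rw [Finset.sum_eq_single q]
  · rw [Finsupp.single_eq_same]
    simp
  · intro b _ hb
    rw [Finsupp.single_apply, if_neg (fun h => hb h.symm)]
    simp
  · intro h
    exact absurd (Finset.mem_univ q) h

private theorem Wc_sum {n : ℕ} {ι : Type} [Fintype ι] {κ : Type*} {B : Fin n → ℝ} {c : ℝ} (s : Finset κ)
    (f : κ → MvPolynomial (Fin n × ι) ℝ) (h : ∀ k ∈ s, Wc B c (f k)) : Wc B c (∑ k ∈ s, f k) := by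
  classical
  induction s using Finset.induction_on with
  | empty =>
    rw [Finset.sum_empty]
    exact Wc_zero B c
  | insert k s hk ih =>
    rw [Finset.sum_insert hk]
    exact Wc_add (h k (Finset.mem_insert_self k s))
      (ih fun j hj => h j (Finset.mem_insert_of_mem hj))

private theorem Wc_pow {n : ℕ} {ι : Type} [Fintype ι] {B : Fin n → ℝ} {c : ℝ}
    {f : MvPolynomial (Fin n × ι) ℝ} (h : Wc B c f) (m : ℕ) : Wc B (c * m) (f ^ m) := by
  induction m with
  | zero =>
    rw [pow_zero, Nat.cast_zero, mul_zero, ← C_1]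
    exact Wc_C B 1
  | succ m ih =>
    rw [pow_succ]
    exact Wc_mono (Wc_mul ih h) (by push_cast; linarith)

private theorem Wc_prod {n : ℕ} {ι : Type} [Fintype ι] {κ : Type*} {B : Fin n → ℝ} (c : κ → ℝ)
    (s : Finset κ) (f : κ → MvPolynomial (Fin n × ι) ℝ) (h : ∀ k ∈ s, Wc B (c k) (f k)) :
    Wc B (∑ k ∈ s, c k) (∏ k ∈ s, f k) := by
  classical
  induction s using Finset.induction_on with
  | empty =>
    rw [Finset.sum_empty, Finset.prod_empty, ← C_1]
    exact Wc_C B 1
  | insert k s hk ih =>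
    rw [Finset.sum_insert hk, Finset.prod_insert hk]
    exact Wc_mul (h k (Finset.mem_insert_self k s))
      (ih fun j hj => h j (Finset.mem_insert_of_mem hj))

/-- TASK Wa. The substitution replaces the variable `(i, j)` by `∑ k, p i k (k, j)`, and `B k ≥ B i`
where `p i k ≠ 0`: weights of monomials only grow. Idea: the polynomials all of whose monomials have
weight at least `c` (row weights `B`) are additive, and multiply with the `c` added; a monomial `a` of `f`
becomes a product of `a q` factors of weight at least `B q.1`. -/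
theorem Wt_sub {n : ℕ} {ι : Type} [Fintype ι] (B : Fin n → ℝ) (p : Matrix (Fin n) (Fin n) ℝ)
    (hp : ∀ i k, p i k ≠ 0 → B i ≤ B k) (f : MvPolynomial (Fin n × ι) ℝ) (h : Wt B f) :
    Wt B (sub p f) := by
  have hL : ∀ q : Fin n × ι, Wc B (B q.1) (∑ k, C (p q.1 k) * X (k, q.2)) := by
    intro q
    refine Wc_sum _ _ fun k _ => ?_
    by_cases hk : p q.1 k = 0
    · rw [hk, C_0, zero_mul]
      exact Wc_zero B _
    · refine Wc_mono (Wc_mul (Wc_C B (p q.1 k)) (Wc_X B (k, q.2))) ?_
      have := hp q.1 k hk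
      show B q.1 ≤ 0 + B k
      linarith
  have hs : Wc B 1 (sub p f) := by
    unfold sub
    rw [aeval_def, eval₂_eq']
    refine Wc_sum _ _ fun d hd => ?_
    have h1 := h d hd
    refine Wc_mono (Wc_mul (Wc_C B (coeff d f)) (Wc_prod (fun q : Fin n × ι => B q.1 * (d q : ℝ)) Finset.univ
      (fun q => (∑ k, C (p q.1 k) * X (k, q.2)) ^ d q) fun q _ => Wc_pow (hL q) (d q))) ?_
    rw [zero_add]
    exact h1
  exact hs

end Pool.Agent.H9.IZ
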