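import Pool.Agent.H9.IZ.Mn

set_option autoImplicit false

open MvPolynomial Matrix Module

namespace Pool.Agent.H9.IZ

/-- polynomials of degree at most `r` vanishing on `G` -/
private def ip {n : ℕ} (G : Subgroup (SpecialLinearGroup (Fin n) ℝ)) (r : ℕ) :
    Submodule ℝ (MvPolynomial (Fin n × Fin n) ℝ) where
  carrier := {p | p.totalDegree ≤ r ∧ ∀ γ ∈ G, ev (γ : Matrix (Fin n) (Fin n) ℝ) p = 0}
  zero_mem' := ⟨by rw [totalDegree_zero]; exact Nat.zero_le _, fun γ _ => map_zero _⟩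
  add_mem' := by
    rintro x y ⟨hx, hx'⟩ ⟨hy, hy'⟩
    refine ⟨(totalDegree_add x y).trans (max_le hx hy), fun γ hγ => ?_⟩
    have h1 := hx' γ hγ
    have h2 := hy' γ hγ
    unfold ev at h1 h2 ⊢
    rw [map_add, h1, h2, add_zero]
  smul_mem' := by
    rintro a x ⟨hx, hx'⟩
    refine ⟨(totalDegree_smul_le a x).trans hx, fun γ hγ => ?_⟩
    have h1 := hx' γ hγ
    unfold ev at h1 ⊢
    rw [smul_eval, h1, mul_zero]

theorem exists_basis2 {n : ℕ} (G : Subgroup (SpecialLinearGroup (Fin n) ℝ))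
    (q : MvPolynomial (Fin n × Fin n) ℝ)
    (hq : ∀ γ ∈ G, ev (γ : Matrix (Fin n) (Fin n) ℝ) q = 0) :
    ∃ (D : ℕ) (p : Fin D → MvPolynomial (Fin n × Fin n) ℝ), LinearIndependent ℝ p ∧
      q ∈ Submodule.span ℝ (Set.range p) ∧
      (∀ i, ∀ γ ∈ G, ev (γ : Matrix (Fin n) (Fin n) ℝ) (p i) = 0) ∧
      ∀ γ ∈ G, ∃ c : Matrix (Fin D) (Fin D) ℝ, ∀ i (Y : Matrix (Fin n) (Fin n) ℝ),
        ev ((γ : Matrix (Fin n) (Fin n) ℝ) * Y) (p i) = ∑ j, c i j * ev Y (p j) := by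
  classical
  set I := ip G q.totalDegree with hI
  have hle : I ≤ restrictTotalDegree (Fin n × Fin n) ℝ q.totalDegree := by
    rintro x ⟨hx, _⟩
    rwa [mem_restrictTotalDegree]
  have : FiniteDimensional ℝ I := Submodule.finiteDimensional_of_le hle
  let b := Module.finBasis ℝ I
  refine ⟨finrank ℝ I, fun i => (b i : MvPolynomial (Fin n × Fin n) ℝ), ?_, ?_, ?_, ?_⟩
  · exact b.linearIndependent.map' I.subtype I.ker_subtype
  · have hqI : q ∈ I := ⟨le_rfl, hq⟩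
    have h1 : (⟨q, hqI⟩ : I) = ∑ i, b.repr ⟨q, hqI⟩ i • b i := (b.sum_repr _).symm
    have h2 := congrArg I.subtype h1
    rw [map_sum] at h2
    show I.subtype ⟨q, hqI⟩ ∈ _
    rw [h2]
    refine Submodule.sum_mem _ fun i _ => ?_
    rw [map_smul]
    exact Submodule.smul_mem _ _ (Submodule.subset_span ⟨i, rfl⟩)
  · intro i γ hγ
    exact (b i).2.2 γ hγ
  · intro γ hγ
    have hmem : ∀ i, sub (γ : Matrix (Fin n) (Fin n) ℝ) (b i : MvPolynomial (Fin n × Fin n) ℝ) ∈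
        I := by
      intro i
      refine ⟨(MnAux.deg_sub _ _).trans (b i).2.1, fun δ hδ => ?_⟩
      rw [ev_sub, ← Matrix.SpecialLinearGroup.coe_mul]
      exact (b i).2.2 _ (G.mul_mem hγ hδ)
    refine ⟨Matrix.of fun i j => b.repr ⟨_, hmem i⟩ j, fun i Y => ?_⟩
    have h1 : (⟨_, hmem i⟩ : I) = ∑ j, b.repr ⟨_, hmem i⟩ j • b j := (b.sum_repr _).symm
    have h2 := congrArg I.subtype h1
    rw [map_sum] at h2
    have h3 := congrArg (ev Y) h2
    rw [← ev_sub]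
    refine h3.trans ?_
    unfold ev
    rw [map_sum]
    refine Finset.sum_congr rfl fun j _ => ?_
    rw [map_smul, smul_eval]
    rfl

end Pool.Agent.H9.IZ
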