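import Pool.Agent.H9.IZ.Defs

set_option autoImplicit false

open MvPolynomial Matrix

namespace Pool.Agent.H9.IZ

private theorem zd_span {n D : ℕ} (p : Fin D → MvPolynomial (Fin n × Fin n) ℝ)
    (hp : LinearIndependent ℝ p) :
    Submodule.span ℝ (Set.range fun Y : Matrix (Fin n) (Fin n) ℝ => fun i : Fin D => ev Y (p i)) = ⊤ := by
  classical
  by_contra hne
  obtain ⟨f, hf0, hf⟩ := Submodule.exists_le_ker_of_lt_top _ (lt_top_iff_ne_top.mpr hne)
  apply hf0
  have h1 : ∀ Y : Matrix (Fin n) (Fin n) ℝ, f (fun i => ev Y (p i)) = 0 := fun Y =>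
    LinearMap.mem_ker.mp (hf (Submodule.subset_span ⟨Y, rfl⟩))
  have h2 : ∀ x : Fin D → ℝ, f x = ∑ i, x i * f (Pi.single i 1) := by
    intro x
    conv_lhs => rw [pi_eq_sum_univ' x]
    rw [map_sum]
    refine Finset.sum_congr rfl fun i _ => ?_
    rw [map_smul, smul_eq_mul]
  have h3 : ∑ i, (f (Pi.single i 1)) • p i = 0 := by
    refine ext_ev _ _ fun Y => ?_
    have h4 := h1 Y
    rw [h2] at h4
    unfold ev at h4 ⊢
    rw [map_sum, map_zero]
    rw [← h4]
    refine Finset.sum_congr rfl fun i _ => ?_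
    rw [MvPolynomial.smul_eval]
    ring
  have h5 := (Fintype.linearIndependent_iff.mp hp) _ h3
  ext i
  simpa using h5 i

private theorem zd_pick {n D : ℕ} (p : Fin D → MvPolynomial (Fin n × Fin n) ℝ)
    (hp : LinearIndependent ℝ p) :
    ∃ Y : Fin D → Matrix (Fin n) (Fin n) ℝ, (Matrix.of fun i j => ev (Y j) (p i)).det ≠ 0 := by
  classical
  have hs := zd_span p hp
  obtain ⟨g, hg, -, hli⟩ := Submodule.exists_fun_fin_finrank_span_eq ℝ
    (Set.range fun Y : Matrix (Fin n) (Fin n) ℝ => fun i : Fin D => ev Y (p i))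
  have hr : Module.finrank ℝ (Submodule.span ℝ
      (Set.range fun Y : Matrix (Fin n) (Fin n) ℝ => fun i : Fin D => ev Y (p i))) = D := by
    rw [hs, finrank_top]
    simp
  choose Y hY using hg
  refine ⟨fun j => Y (Fin.cast hr.symm j), ?_⟩
  have h1 : LinearIndependent ℝ (fun j : Fin D => g (Fin.cast hr.symm j)) :=
    hli.comp _ (Fin.cast_injective _)
  have h2 : IsUnit (Matrix.of fun i j => ev (Y (Fin.cast hr.symm j)) (p i)) := by
    rw [← Matrix.linearIndependent_cols_iff_isUnit]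
    have h3 : (Matrix.of fun i j => ev (Y (Fin.cast hr.symm j)) (p i)).col
        = fun j : Fin D => g (Fin.cast hr.symm j) := by
      funext j
      rw [← hY]
      rfl
    rw [h3]
    exact h1
  rw [Matrix.isUnit_iff_isUnit_det] at h2
  exact h2.ne_zero

/-- TASK Za. The `D`-fold determinant. If `p_1, ..., p_D` are linearly independent polynomials in the
entries of an `n × n` matrix and `y` is a matrix at which not all vanish, then
`E(Y_1, ..., Y_D) = det (p_i (Y_j))`, a polynomial of the `D * n` columns (index `(j, k)`: column `k` of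
`Y_j`), does not vanish at some `(Y_1, ..., Y_D)` with `Y_1 = y` (the vectors `(p_i (Y))_i`, `Y` a matrix,
span `ℝ ^ D`; exchange lemma). -/
theorem exists_det {n D : ℕ} (hD : 0 < D) (p : Fin D → MvPolynomial (Fin n × Fin n) ℝ)
    (hp : LinearIndependent ℝ p) (y : Matrix (Fin n) (Fin n) ℝ) (hy : ∃ i, ev y (p i) ≠ 0) :
    ∃ Y : Fin D → Matrix (Fin n) (Fin n) ℝ, Y ⟨0, hD⟩ = y ∧
      (Matrix.of fun i j => ev (Y j) (p i)).det ≠ 0 := by
  classical
  obtain ⟨Z, hZ⟩ := zd_pick p hp
  set A : Matrix (Fin D) (Fin D) ℝ := Matrix.of fun i j => ev (Z j) (p i) with hA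
  have hu : IsUnit A.det := isUnit_iff_ne_zero.mpr hZ
  set c : Fin D → ℝ := A⁻¹ *ᵥ (fun i => ev y (p i)) with hc
  have h1 : A *ᵥ c = fun i => ev y (p i) := by
    rw [hc, Matrix.mulVec_mulVec, Matrix.mul_nonsing_inv A hu, Matrix.one_mulVec]
  have h2 : ∃ j, c j ≠ 0 := by
    by_contra hcon
    push Not at hcon
    obtain ⟨i, hi⟩ := hy
    apply hi
    have h3 : c = 0 := funext hcon
    have h4 := congrFun h1 i
    rw [h3, Matrix.mulVec_zero] at h4
    exact h4.symm
  obtain ⟨j, hj⟩ := h2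
  have h5 : (A.updateCol j (fun i => ev y (p i))).det ≠ 0 := by
    have h6 : (fun i => ev y (p i)) = fun k => ∑ i, c i • A k i := by
      rw [← h1]
      funext k
      rw [Matrix.mulVec, dotProduct]
      refine Finset.sum_congr rfl fun i _ => ?_
      rw [smul_eq_mul, mul_comm]
    rw [h6, Matrix.det_updateCol_sum]
    exact mul_ne_zero hj hZ
  refine ⟨fun k => Function.update Z j y (Equiv.swap ⟨0, hD⟩ j k), ?_, ?_⟩
  · simp
  · have h7 : (Matrix.of fun i k => ev (Function.update Z j y (Equiv.swap ⟨0, hD⟩ j k)) (p i))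
        = (A.updateCol j (fun i => ev y (p i))).submatrix id (Equiv.swap ⟨0, hD⟩ j) := by
      ext i k
      simp only [Matrix.of_apply, Matrix.submatrix_apply, id_eq]
      by_cases hk : Equiv.swap ⟨0, hD⟩ j k = j
      · rw [hk, Function.update_self, Matrix.updateCol_self]
      · rw [Function.update_of_ne hk, Matrix.updateCol_ne hk]
        rfl
    rw [h7, Matrix.det_permute']
    refine mul_ne_zero ?_ h5
    rcases Int.units_eq_one_or (Equiv.Perm.sign (Equiv.swap (⟨0, hD⟩ : Fin D) j)) with h | h <;>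
      simp [h]

end Pool.Agent.H9.IZ
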