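import Pool.Agent.H9.IZ.Ke
import Pool.Agent.H9.IZ.Ds
import Pool.Agent.H9.IZ.Zd
import Pool.Agent.H9.IZ.Zb

/-!
# Zariski density from invariants and irreducibility
-/

set_option autoImplicit false

open MvPolynomial Matrix

namespace Pool.Agent.H9.IZ

/-- block `j` of a matrix with columns indexed by `Fin D × Fin n` -/
private def blk {n D : ℕ} (V : Matrix (Fin n) (Fin D × Fin n) ℝ) (j : Fin D) :
    Matrix (Fin n) (Fin n) ℝ := Matrix.of fun a b => V a (j, b)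

private theorem blk_mul {n D : ℕ} (g : Matrix (Fin n) (Fin n) ℝ)
    (V : Matrix (Fin n) (Fin D × Fin n) ℝ) (j : Fin D) : blk (g * V) j = g * blk V j := by
  ext a b
  rfl

/-- the polynomial `det (p_i (Y_j))` -/
private noncomputable def dt {n D : ℕ} (p : Fin D → MvPolynomial (Fin n × Fin n) ℝ) :
    MvPolynomial (Fin n × (Fin D × Fin n)) ℝ :=
  (Matrix.of fun i j => rename (fun x : Fin n × Fin n => (x.1, (j, x.2))) (p i)).det

private theorem ev_dt {n D : ℕ} (p : Fin D → MvPolynomial (Fin n × Fin n) ℝ)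
    (V : Matrix (Fin n) (Fin D × Fin n) ℝ) :
    ev V (dt p) = (Matrix.of fun i j => ev (blk V j) (p i)).det := by
  unfold ev dt
  rw [RingHom.map_det]
  congr 1
  ext i j
  rw [RingHom.mapMatrix_apply, Matrix.map_apply, Matrix.of_apply, Matrix.of_apply, eval_rename]
  rfl

private theorem inv_eq {n : ℕ} (g : SpecialLinearGroup (Fin n) ℝ) :
    ((g⁻¹ : SpecialLinearGroup (Fin n) ℝ) : Matrix (Fin n) (Fin n) ℝ) *
      (g : Matrix (Fin n) (Fin n) ℝ) = 1 := by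
  rw [← Matrix.SpecialLinearGroup.coe_mul, inv_mul_cancel, Matrix.SpecialLinearGroup.coe_one]

theorem zariski {n : ℕ} (G : Subgroup (SpecialLinearGroup (Fin n) ℝ))
    (hinv : ∀ (D : ℕ) (f : MvPolynomial (Fin n × (Fin D × Fin n)) ℝ),
      (∀ γ ∈ G, ∀ v, ev ((γ : Matrix (Fin n) (Fin n) ℝ) * v) f = ev v f) →
      ∀ (g : SpecialLinearGroup (Fin n) ℝ) (v : Matrix (Fin n) (Fin D × Fin n) ℝ),
        ev ((g : Matrix (Fin n) (Fin n) ℝ) * v) f = ev v f)
    (hirr : ∀ U : Submodule ℝ (Fin n → ℝ),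
      (∀ γ ∈ G, ∀ u ∈ U, (γ : Matrix (Fin n) (Fin n) ℝ) *ᵥ u ∈ U) → U = ⊥ ∨ U = ⊤)
    (q : MvPolynomial (Fin n × Fin n) ℝ)
    (hq : ∀ γ ∈ G, ev (γ : Matrix (Fin n) (Fin n) ℝ) q = 0) (g : SpecialLinearGroup (Fin n) ℝ) :
    ev (g : Matrix (Fin n) (Fin n) ℝ) q = 0 := by
  classical
  by_contra hne
  obtain ⟨D, p, hp, hqs, hpG, hc⟩ := exists_basis2 G q hq
  have hex : ∃ i, ev (g : Matrix (Fin n) (Fin n) ℝ) (p i) ≠ 0 := by
    by_contra hno
    push Not at hno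
    apply hne
    refine Submodule.span_induction (p := fun x _ => ev (g : Matrix (Fin n) (Fin n) ℝ) x = 0)
      ?_ ?_ ?_ ?_ hqs
    · rintro _ ⟨i, rfl⟩
      exact hno i
    · exact map_zero _
    · intro x y _ _ hx hy
      unfold ev at hx hy ⊢
      rw [map_add, hx, hy, add_zero]
    · intro a x _ hx
      unfold ev at hx ⊢
      rw [smul_eval, hx, mul_zero]
  obtain ⟨i0, hi0⟩ := hex
  have hD : 0 < D := i0.pos
  obtain ⟨Y, hY0, hYdet⟩ := exists_det hD p hp g ⟨i0, hi0⟩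
  set E := dt p with hE
  set V : Matrix (Fin n) (Fin D × Fin n) ℝ := Matrix.of fun a x => Y x.1 a x.2 with hV
  have hblk : ∀ j, blk V j = Y j := fun j => rfl
  have hVE : ev V E ≠ 0 := by
    rw [hE, ev_dt]
    exact hYdet
  have hE0 : E ≠ 0 := by
    intro h
    apply hVE
    rw [h]
    exact map_zero _
  choose c hcc using hc
  have hsemi : ∀ γ (hγ : γ ∈ G) (v : Matrix (Fin n) (Fin D × Fin n) ℝ),
      ev ((γ : Matrix (Fin n) (Fin n) ℝ) * v) E = (c γ hγ).det * ev v E := by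
    intro γ hγ v
    rw [hE, ev_dt, ev_dt, ← Matrix.det_mul]
    congr 1
    ext i j
    rw [Matrix.of_apply, Matrix.mul_apply, blk_mul, hcc γ hγ]
    rfl
  have hsub : ∀ γ (hγ : γ ∈ G), sub (γ : Matrix (Fin n) (Fin n) ℝ) E = C (c γ hγ).det * E := by
    intro γ hγ
    refine ext_ev _ _ fun v => ?_
    rw [ev_sub, hsemi γ hγ]
    unfold ev
    rw [map_mul, eval_C]
  have hprod : ∀ γ (hγ : γ ∈ G), (c γ⁻¹ (G.inv_mem hγ)).det * (c γ hγ).det = 1 := by
    intro γ hγ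
    have h1 := hsemi γ⁻¹ (G.inv_mem hγ) ((γ : Matrix (Fin n) (Fin n) ℝ) * V)
    rw [← Matrix.mul_assoc, inv_eq, Matrix.one_mul, hsemi γ hγ, ← mul_assoc] at h1
    have h2 : ((c γ⁻¹ (G.inv_mem hγ)).det * (c γ hγ).det - 1) * ev V E = 0 := by
      linear_combination -h1
    rcases mul_eq_zero.1 h2 with h3 | h3
    · linarith
    · exact absurd h3 hVE
  have hge : ∀ γ (hγ : γ ∈ G), 1 ≤ |(c γ hγ).det| := by
    intro γ hγ
    by_contra hlt
    push Not at hlt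
    have hc0 : (c γ hγ).det ≠ 0 := right_ne_zero_of_mul_eq_one (hprod γ hγ)
    obtain ⟨U, hU1, hU2, hU3⟩ := kempf E hE0
      (dst_of E (γ : Matrix (Fin n) (Fin n) ℝ) γ.2 _ hc0 hlt (hsub γ hγ))
    rcases hirr U (fun δ hδ u hu => hU3 (δ : Matrix (Fin n) (Fin n) ℝ)
      (by rw [δ.2]; exact isUnit_one) ⟨_, hsub δ hδ⟩ u hu) with h | h
    · exact hU1 h
    · exact hU2 h
  have hsq : ∀ γ (hγ : γ ∈ G), (c γ hγ).det * (c γ hγ).det = 1 := by
    intro γ hγ
    have h1 := hge γ hγ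
    have h2 := hge γ⁻¹ (G.inv_mem hγ)
    have h3 : |(c γ⁻¹ (G.inv_mem hγ)).det| * |(c γ hγ).det| = 1 := by
      rw [← abs_mul, hprod, abs_one]
    have h4 : |(c γ hγ).det| ≤ 1 := by
      nlinarith [abs_nonneg (c γ hγ).det]
    have h5 : |(c γ hγ).det| = 1 := le_antisymm h4 h1
    rw [← abs_mul_abs_self, h5, one_mul]
  have hEE : ∀ γ ∈ G, ∀ v, ev ((γ : Matrix (Fin n) (Fin n) ℝ) * v) (E * E) = ev v (E * E) := by
    intro γ hγ v
    have h1 := hsemi γ hγ v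
    unfold ev at h1 ⊢
    rw [map_mul, map_mul, h1]
    have h2 := hsq γ hγ
    linear_combination (eval (fun q => v q.1 q.2) E * eval (fun q => v q.1 q.2) E) * h2
  have h1 := hinv D (E * E) hEE g (((g⁻¹ : SpecialLinearGroup (Fin n) ℝ) :
    Matrix (Fin n) (Fin n) ℝ) * V)
  have hgg : (g : Matrix (Fin n) (Fin n) ℝ) * (((g⁻¹ : SpecialLinearGroup (Fin n) ℝ) :
      Matrix (Fin n) (Fin n) ℝ) * V) = V := by
    rw [← Matrix.mul_assoc, ← Matrix.SpecialLinearGroup.coe_mul, mul_inv_cancel,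
      Matrix.SpecialLinearGroup.coe_one, Matrix.one_mul]
  rw [hgg] at h1
  have h2 : ev (((g⁻¹ : SpecialLinearGroup (Fin n) ℝ) : Matrix (Fin n) (Fin n) ℝ) * V) E = 0 := by
    rw [hE, ev_dt]
    refine Matrix.det_eq_zero_of_column_eq_zero (⟨0, hD⟩ : Fin D) fun i => ?_
    rw [Matrix.of_apply, blk_mul, hblk, hY0, inv_eq]
    have h3 := hpG i 1 G.one_mem
    rwa [Matrix.SpecialLinearGroup.coe_one] at h3
  have h3 : ev V (E * E) = ev V E * ev V E := by
    unfold ev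
    rw [map_mul]
  have h4 : ev (((g⁻¹ : SpecialLinearGroup (Fin n) ℝ) : Matrix (Fin n) (Fin n) ℝ) * V) (E * E) =
      0 := by
    unfold ev at h2 ⊢
    rw [map_mul, h2, mul_zero]
  rw [h3, h4] at h1
  exact hVE (mul_self_eq_zero.1 h1)

end Pool.Agent.H9.IZ
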